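import Pool.Agent.H.MP_96e181_an.spw.Defs

/-! # Module Back: going back along the semigroup (pairwise coprime integers)

Fix `x`, `v`, `δ`; `τ a = bt p x v δ a`, `O a = ord τ_a`, `a ≤ v`.  `bt_rel`: `g_{a-b} τ_a = τ_b` for
`b ≤ a ≤ v`, so all orders are positive and `O a = O b * gcd (O a) g_{a-b}` (`order_mul`); these
three are as in `spz/Back.lean`.

Exponents (`ℓ` a prime, `n > 0`): `v_ℓ (qp q n) = v_ℓ n` if `ℓ ∣ q` (`v_ℓ n < n ≤ n v_ℓ q`), and `0`
otherwise.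
`qp_order`: `O a = O b * d`, `b = a_i e_i`, `d ∣ g_{a-b}` is prime to `p_i`; so
`v_ℓ (O a) = v_ℓ (O b)` for `ℓ ∣ p_i`.
`qo_mono`, `qo_step`: `τ_{m e_i} = p_i^(n-m) τ_{n e_i}`: `O (n e_i) = O (m e_i) * d`,
`d ∣ p_i^(n-m)`, so `qo i n = qo i m * d`.
`order_prod`: compare the exponents of a prime `ℓ`.  If `ℓ ∣ p_i` for an `i ∈ K` (there is only one,
and `ℓ` does not divide `qp (p_j) _` for `j ≠ i`): `v_ℓ (O a) = v_ℓ (qo i (a_i))` and
`v_ℓ (O 0) = v_ℓ (qo i 0)` by `qp_order`.  If `ℓ` divides no `p_i`, `i ∈ K`: both products have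
exponent `0` and `O a = O 0 * gcd (O a) g_a` with `ℓ ∤ g_a`.
`order_bound`: `order_prod` for `a = rst K cb + w` with `qo i 0 ≥ 1`,
`qo i (cb_i + w_i) ≤ p_i^(w_i) qo i cb_i ≤ p_i^(w_i) θ` (`Nat.findGreatest_spec`, as `qo i 0 ≤ θ`).
`dep_eq`: `p_i^n τ_a = τ_{a - n e_i}` for `n ≤ a_i`, so its `p_i`-part is `qo i (a_i - n)`
(`qp_order`); for `i ∈ K`, `a_i = cb_i + w_i`: it is `≤ θ` for `n = w_i` and `> θ` for `n < w_i`
(`Nat.findGreatest_is_greatest`).  `dep_zero`: for `i ∉ K`, `a_i = 0` and `n = 0` will do.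
`card_sb_le`: `∏_{i ∈ sb} qo i 0` divides `O 0 ≤ B` (pairwise coprime divisors); with more than `s`
elements the product would be `> θ^s ≥ B` (every factor is `> θ ≥ 1`).
`order_run`: `order_prod` with `K = {i}`, `a = n e_i`: `O a * qo i 0 = O 0 * qo i n`, and
`1 ≤ qo i 0 ≤ qo i n ≤ θ`. -/

set_option autoImplicit false

open MeasureTheory

namespace Furst96.Spw

open Furst96.Sps Furst96.Spz

variable {ι : Type*} [Fintype ι] [DecidableEq ι]

/-! ### the part of an integer made of the primes of `q` -/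

private theorem Back_dvd {q a k n : ℕ} (hq : q ≠ 0) (ha : a ≠ 0) (h : a ∣ q ^ k) (hn : a ≤ n) :
    a ∣ q ^ n := by
  rw [← Nat.factorization_le_iff_dvd ha (pow_ne_zero _ hq)]
  intro l
  have h1 := (Nat.factorization_le_iff_dvd ha (pow_ne_zero _ hq)).2 h l
  rw [Nat.factorization_pow, Finsupp.smul_apply, smul_eq_mul] at h1 ⊢
  have h2 : a.factorization l < a := Nat.factorization_lt l ha
  rcases Nat.eq_zero_or_pos (q.factorization l) with h3 | h3
  · rw [h3, Nat.mul_zero] at h1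
    omega
  · calc a.factorization l ≤ n * 1 := by omega
      _ ≤ n * q.factorization l := Nat.mul_le_mul_left _ h3

/-- the characterization of `qp`. -/
private theorem Back_char {q a b k : ℕ} (hq : q ≠ 0) (ha : a ≠ 0) (hb : b ≠ 0) (h : a ∣ q ^ k)
    (hc : Nat.Coprime b q) : qp q (a * b) = a := by
  unfold qp
  have h1 : Nat.Coprime b (q ^ (a * b)) := hc.pow_right _
  rw [Nat.Coprime.gcd_mul_right_cancel _ h1]
  exact Nat.gcd_eq_left (Back_dvd hq ha h (Nat.le_mul_of_pos_right _ (Nat.pos_of_ne_zero hb)))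

private theorem Back_decomp {q n : ℕ} (hq : q ≠ 0) (hn : n ≠ 0) :
    ∃ b, b ≠ 0 ∧ Nat.Coprime b q ∧ n = qp q n * b ∧ qp q n ∣ q ^ n := by
  have h0 : qp q n ∣ n := qp_dvd q n
  obtain ⟨b, hb⟩ := h0
  have hb0 : b ≠ 0 := by
    rintro rfl
    rw [Nat.mul_zero] at hb
    exact hn hb
  refine ⟨b, hb0, ?_, hb, Nat.gcd_dvd_right _ _⟩
  rw [Nat.coprime_iff_gcd_eq_one]
  by_contra hne
  obtain ⟨l, hl, hlb⟩ := Nat.exists_prime_and_dvd hne
  have hlb1 : l ∣ b := hlb.trans (Nat.gcd_dvd_left _ _)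
  have hlq : l ∣ q := hlb.trans (Nat.gcd_dvd_right _ _)
  have hqn : q ^ n ≠ 0 := pow_ne_zero _ hq
  have h1 : (qp q n).factorization l = min (n.factorization l) ((q ^ n).factorization l) := by
    unfold qp
    rw [Nat.factorization_gcd hn hqn, Finsupp.inf_apply]
  have h2 : n.factorization l = (qp q n).factorization l + b.factorization l := by
    conv_lhs => rw [hb]
    rw [Nat.factorization_mul (qp_pos q (Nat.pos_of_ne_zero hn)).ne' hb0, Finsupp.add_apply]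
  have h3 : 0 < b.factorization l := hl.factorization_pos_of_dvd hb0 hlb1
  have h4 : 0 < q.factorization l := hl.factorization_pos_of_dvd hq hlq
  have h5 : n.factorization l < n := Nat.factorization_lt l hn
  rw [Nat.factorization_pow, Finsupp.smul_apply, smul_eq_mul] at h1
  have h6 : n * 1 ≤ n * q.factorization l := Nat.mul_le_mul_left _ h4
  omega

private theorem Back_mul {q m n : ℕ} (hq : q ≠ 0) (hm : m ≠ 0) (hn : n ≠ 0) :
    qp q (m * n) = qp q m * qp q n := by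
  obtain ⟨b, hb0, hb, hb1, hb2⟩ := Back_decomp hq hm
  obtain ⟨c, hc0, hc, hc1, hc2⟩ := Back_decomp hq hn
  have h1 : m * n = (qp q m * qp q n) * (b * c) := by
    calc m * n = (qp q m * b) * (qp q n * c) := by rw [← hb1, ← hc1]
      _ = _ := by ring
  rw [h1]
  exact Back_char (k := m + n) hq
    (mul_ne_zero (qp_pos q (Nat.pos_of_ne_zero hm)).ne' (qp_pos q (Nat.pos_of_ne_zero hn)).ne')
    (mul_ne_zero hb0 hc0) (by rw [pow_add]; exact Nat.mul_dvd_mul hb2 hc2) (hb.mul_left hc)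

private theorem Back_one {q n : ℕ} (hq : q ≠ 0) (hn : n ≠ 0) (h : Nat.Coprime n q) :
    qp q n = 1 := by
  have h1 := Back_char (a := 1) (b := n) (k := 1) hq one_ne_zero hn (one_dvd _) h
  rwa [one_mul] at h1

private theorem Back_cop {p : ι → ℕ} (hco : Pairwise fun i j => Nat.Coprime (p i) (p j))
    (c : ι → ℕ) (i : ι) (s : Finset ι) (h : i ∈ s → c i = 0) :
    Nat.Coprime (∏ j ∈ s, p j ^ c j) (p i) := by
  refine Nat.Coprime.prod_left fun j hj => ?_
  rcases eq_or_ne j i with rfl | hne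
  · rw [h hj, pow_zero]
    exact Nat.coprime_one_left _
  · exact (hco hne).pow_left _

/-- a divisor of `∏ p_i ^ a_i` is the product of its parts. -/
private theorem Back_parts {p : ι → ℕ} (hp : ∀ i, 2 ≤ p i)
    (hco : Pairwise fun i j => Nat.Coprime (p i) (p j)) (c : ι → ℕ) (K : Finset ι) :
    ∀ d : ℕ, d ∣ ∏ i ∈ K, p i ^ c i → ∏ i ∈ K, qp (p i) d = d := by
  induction K using Finset.induction_on with
  | empty =>
    intro d hd
    rw [Finset.prod_empty] at hd ⊢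
    exact (Nat.dvd_one.1 hd).symm
  | insert k K hk ih =>
    intro d hd
    rw [Finset.prod_insert hk] at hd ⊢
    have hp0 : ∀ i, p i ≠ 0 := fun i => by have := hp i; omega
    have hP0 : (∏ i ∈ K, p i ^ c i) ≠ 0 :=
      Finset.prod_ne_zero_iff.2 fun i _ => pow_ne_zero _ (hp0 i)
    have hd0 : d ≠ 0 := by
      rintro rfl
      exact mul_ne_zero (pow_ne_zero _ (hp0 k)) hP0 (Nat.eq_zero_of_zero_dvd hd)
    have hcop : Nat.Coprime (p k ^ c k) (∏ i ∈ K, p i ^ c i) :=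
      ((Back_cop hco c k K fun h => absurd h hk).symm).pow_left _
    have h1 : d = Nat.gcd d (p k ^ c k) * Nat.gcd d (∏ i ∈ K, p i ^ c i) := by
      rw [← Nat.Coprime.gcd_mul d hcop]
      exact (Nat.gcd_eq_left hd).symm
    obtain ⟨d1, hd1⟩ : ∃ d1, d1 = Nat.gcd d (p k ^ c k) := ⟨_, rfl⟩
    obtain ⟨d2, hd2⟩ : ∃ d2, d2 = Nat.gcd d (∏ i ∈ K, p i ^ c i) := ⟨_, rfl⟩
    rw [← hd1, ← hd2] at h1
    have hd1' : d1 ∣ p k ^ c k := by rw [hd1]; exact Nat.gcd_dvd_right _ _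
    have hd2' : d2 ∣ ∏ i ∈ K, p i ^ c i := by rw [hd2]; exact Nat.gcd_dvd_right _ _
    have h10 : d1 ≠ 0 := by
      rintro rfl
      rw [Nat.zero_mul] at h1
      exact hd0 h1
    have h20 : d2 ≠ 0 := by
      rintro rfl
      rw [Nat.mul_zero] at h1
      exact hd0 h1
    have h3 : qp (p k) d = d1 := by
      rw [h1]
      exact Back_char (hp0 k) h10 h20 hd1'
        (Nat.Coprime.coprime_dvd_left hd2' (Back_cop hco c k K fun h => absurd h hk))
    have h4 : ∏ i ∈ K, qp (p i) d = ∏ i ∈ K, qp (p i) d2 := by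
      refine Finset.prod_congr rfl fun i hi => ?_
      rw [h1, Back_mul (hp0 i) h10 h20, Back_one (hp0 i) h10, one_mul]
      have hne : k ≠ i := fun h => hk (h ▸ hi)
      exact Nat.Coprime.coprime_dvd_left hd1' ((hco hne).pow_left _)
    rw [h3, h4, ih d2 hd2']
    exact h1.symm

private theorem Back_le {a : ι → ℕ} {i : ι} {n : ℕ} (hn : n ≤ a i) :
    (Pi.single i n : ι → ℕ) ≤ a := by
  intro j
  rcases eq_or_ne j i with rfl | h
  · rw [Pi.single_eq_same]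
    exact hn
  · rw [Pi.single_eq_of_ne h]
    exact Nat.zero_le _

private theorem Back_gg (p : ι → ℕ) (i : ι) (n : ℕ) : gg p (Pi.single i n) = p i ^ n := by
  unfold gg
  rw [Finset.prod_eq_single i]
  · rw [Pi.single_eq_same]
  · intro j _ hj
    rw [Pi.single_eq_of_ne hj, pow_zero]
  · intro h
    exact absurd (Finset.mem_univ i) h

private theorem Back_sub (i : ι) (m n : ℕ) :
    (Pi.single i n : ι → ℕ) - Pi.single i m = Pi.single i (n - m) := by
  funext j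
  rcases eq_or_ne j i with rfl | h
  · simp only [Pi.sub_apply, Pi.single_eq_same]
  · simp only [Pi.sub_apply, Pi.single_eq_of_ne h, Nat.sub_self]

theorem bt_rel (p : ι → ℕ) (hp : ∀ i, 2 ≤ p i) (x : UnitAddCircle) (v : ι → ℕ) (δ : ℝ)
    (a b : ι → ℕ) (hba : b ≤ a) (hav : a ≤ v) :
    gg p (a - b) • bt p x v δ a = bt p x v δ b := by
  have h1 : a - b + (v - a) = v - b := by
    funext i
    have e1 : b i ≤ a i := hba i
    have e2 : a i ≤ v i := hav i
    simp only [Pi.add_apply, Pi.sub_apply]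
    omega
  have h2 : a - b + b = a := by
    funext i
    have e1 : b i ≤ a i := hba i
    simp only [Pi.add_apply, Pi.sub_apply]
    omega
  have h3 : (gg p a : ℝ) = gg p (a - b) * gg p b := by
    rw [← Nat.cast_mul, ← gg_add, h2]
  have h4 : (gg p (a - b) : ℝ) ≠ 0 := by
    exact_mod_cast (gg_pos hp (a - b)).ne'
  have h5 : (gg p b : ℝ) ≠ 0 := by
    exact_mod_cast (gg_pos hp b).ne'
  have h6 : (gg p (a - b) : ℝ) * (δ / (gg p (a - b) * gg p b)) = δ / gg p b := by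
    field_simp
  unfold bt
  rw [nsmul_sub, smul_smul, ← gg_add, h1, ← AddCircle.coe_nsmul, nsmul_eq_mul, h3, h6]

theorem order_pos (p : ι → ℕ) (hp : ∀ i, 2 ≤ p i) (x : UnitAddCircle) (v : ι → ℕ) (δ : ℝ)
    (h0 : 0 < addOrderOf (bt p x v δ 0)) (a : ι → ℕ) (hav : a ≤ v) :
    0 < addOrderOf (bt p x v δ a) := by
  have h1 := bt_rel p hp x v δ a 0 (fun i => Nat.zero_le _) hav
  rw [addOrderOf_pos_iff, isOfFinAddOrder_iff_nsmul_eq_zero]
  refine ⟨addOrderOf (bt p x v δ 0) * gg p (a - 0),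
    Nat.mul_pos h0 (gg_pos hp _), ?_⟩
  rw [mul_smul, h1]
  exact addOrderOf_nsmul_eq_zero _

theorem order_mul (p : ι → ℕ) (hp : ∀ i, 2 ≤ p i) (x : UnitAddCircle) (v : ι → ℕ) (δ : ℝ)
    (a b : ι → ℕ) (hba : b ≤ a) (hav : a ≤ v) :
    addOrderOf (bt p x v δ a) =
      addOrderOf (bt p x v δ b) * Nat.gcd (addOrderOf (bt p x v δ a)) (gg p (a - b)) := by
  rw [← bt_rel p hp x v δ a b hba hav, addOrderOf_nsmul' _ (gg_pos hp _).ne']
  exact (Nat.div_mul_cancel (Nat.gcd_dvd_left _ _)).symm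

theorem qp_order (p : ι → ℕ) (hp : ∀ i, 2 ≤ p i) (hco : Pairwise fun i j => Nat.Coprime (p i) (p j))
    (x : UnitAddCircle) (v : ι → ℕ) (δ : ℝ) (h0 : 0 < addOrderOf (bt p x v δ 0))
    (a : ι → ℕ) (hav : a ≤ v) (i : ι) :
    qp (p i) (addOrderOf (bt p x v δ a)) = qo p x v δ i (a i) := by
  have hle : (Pi.single i (a i) : ι → ℕ) ≤ a := Back_le le_rfl
  have hs := hle.trans hav
  have hb := (order_pos p hp x v δ h0 _ hs).ne'
  have ha := (order_pos p hp x v δ h0 _ hav).ne'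
  have hp0 : p i ≠ 0 := by have := hp i; omega
  have h1 := order_mul p hp x v δ a (Pi.single i (a i)) hle hav
  have hd0 : Nat.gcd (addOrderOf (bt p x v δ a)) (gg p (a - Pi.single i (a i))) ≠ 0 :=
    Nat.gcd_ne_zero_left ha
  have hc : Nat.Coprime (Nat.gcd (addOrderOf (bt p x v δ a)) (gg p (a - Pi.single i (a i))))
      (p i) := by
    refine Nat.Coprime.coprime_dvd_left (Nat.gcd_dvd_right _ _) ?_
    refine Back_cop hco _ i Finset.univ fun _ => ?_
    simp only [Pi.sub_apply, Pi.single_eq_same, Nat.sub_self]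
  have h2 : qp (p i) (addOrderOf (bt p x v δ a)) =
      qp (p i) (addOrderOf (bt p x v δ (Pi.single i (a i))) *
        Nat.gcd (addOrderOf (bt p x v δ a)) (gg p (a - Pi.single i (a i)))) := by
    rw [← h1]
  rw [h2, Back_mul hp0 hb hd0, Back_one hp0 hd0 hc, mul_one]
  rfl

theorem qo_pos (p : ι → ℕ) (hp : ∀ i, 2 ≤ p i) (x : UnitAddCircle) (v : ι → ℕ) (δ : ℝ)
    (h0 : 0 < addOrderOf (bt p x v δ 0)) (i : ι) (n : ℕ) (hn : n ≤ v i) :
    1 ≤ qo p x v δ i n := by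
  exact qp_pos _ (order_pos p hp x v δ h0 _ (Back_le hn))

theorem qo_mono (p : ι → ℕ) (hp : ∀ i, 2 ≤ p i) (x : UnitAddCircle) (v : ι → ℕ) (δ : ℝ)
    (h0 : 0 < addOrderOf (bt p x v δ 0)) (i : ι) (m n : ℕ) (hmn : m ≤ n) (hn : n ≤ v i) :
    qo p x v δ i m ≤ qo p x v δ i n := by
  have hle : (Pi.single i m : ι → ℕ) ≤ Pi.single i n := by
    refine Back_le ?_
    rw [Pi.single_eq_same]
    exact hmn
  have hnv : (Pi.single i n : ι → ℕ) ≤ v := Back_le hn
  have hb := (order_pos p hp x v δ h0 _ (hle.trans hnv)).ne'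
  have ha := (order_pos p hp x v δ h0 _ hnv).ne'
  have hp0 : p i ≠ 0 := by have := hp i; omega
  have h1 := order_mul p hp x v δ _ _ hle hnv
  have hd0 : Nat.gcd (addOrderOf (bt p x v δ (Pi.single i n)))
      (gg p (Pi.single i n - Pi.single i m)) ≠ 0 := Nat.gcd_ne_zero_left ha
  unfold qo
  rw [h1, Back_mul hp0 hb hd0]
  exact Nat.le_mul_of_pos_right _ (qp_pos _ (Nat.pos_of_ne_zero hd0))

theorem qo_step (p : ι → ℕ) (hp : ∀ i, 2 ≤ p i) (x : UnitAddCircle) (v : ι → ℕ) (δ : ℝ)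
    (h0 : 0 < addOrderOf (bt p x v δ 0)) (i : ι) (m n : ℕ) (hmn : m ≤ n) (hn : n ≤ v i) :
    qo p x v δ i n ≤ p i ^ (n - m) * qo p x v δ i m := by
  have hle : (Pi.single i m : ι → ℕ) ≤ Pi.single i n := by
    refine Back_le ?_
    rw [Pi.single_eq_same]
    exact hmn
  have hnv : (Pi.single i n : ι → ℕ) ≤ v := Back_le hn
  have hb := (order_pos p hp x v δ h0 _ (hle.trans hnv)).ne'
  have ha := (order_pos p hp x v δ h0 _ hnv).ne'
  have hp0 : p i ≠ 0 := by have := hp i; omega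
  have h1 := order_mul p hp x v δ _ _ hle hnv
  obtain ⟨d, hd⟩ : ∃ d, d = Nat.gcd (addOrderOf (bt p x v δ (Pi.single i n)))
      (gg p (Pi.single i n - Pi.single i m)) := ⟨_, rfl⟩
  rw [← hd] at h1
  have hd0 : d ≠ 0 := by rw [hd]; exact Nat.gcd_ne_zero_left ha
  have hdp : d ∣ p i ^ (n - m) := by
    rw [hd, Back_sub, Back_gg]
    exact Nat.gcd_dvd_right _ _
  have h2 : qp (p i) d ≤ p i ^ (n - m) :=
    (Nat.le_of_dvd (Nat.pos_of_ne_zero hd0) (qp_dvd _ _)).trans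
      (Nat.le_of_dvd (pow_pos (Nat.pos_of_ne_zero hp0) _) hdp)
  unfold qo
  rw [h1, Back_mul hp0 hb hd0, mul_comm]
  exact Nat.mul_le_mul_right _ h2

theorem order_prod (p : ι → ℕ) (hp : ∀ i, 2 ≤ p i)
    (hco : Pairwise fun i j => Nat.Coprime (p i) (p j))
    (x : UnitAddCircle) (v : ι → ℕ) (δ : ℝ) (h0 : 0 < addOrderOf (bt p x v δ 0))
    (K : Finset ι) (a : ι → ℕ) (ha : ∀ i, i ∉ K → a i = 0) (hav : a ≤ v) :
    addOrderOf (bt p x v δ a) * ∏ i ∈ K, qo p x v δ i 0 =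
      addOrderOf (bt p x v δ 0) * ∏ i ∈ K, qo p x v δ i (a i) := by
  have hz : (0 : ι → ℕ) ≤ a := fun i => Nat.zero_le _
  have ha0 := (order_pos p hp x v δ h0 _ hav).ne'
  have hp0 : ∀ i, p i ≠ 0 := fun i => by have := hp i; omega
  have h1 := order_mul p hp x v δ a 0 hz hav
  obtain ⟨d, hd⟩ : ∃ d, d = Nat.gcd (addOrderOf (bt p x v δ a)) (gg p (a - 0)) := ⟨_, rfl⟩
  rw [← hd] at h1
  have hd0 : d ≠ 0 := by rw [hd]; exact Nat.gcd_ne_zero_left ha0
  have hg : gg p (a - 0) = ∏ i ∈ K, p i ^ a i := by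
    unfold gg
    rw [← Finset.prod_subset (Finset.subset_univ K)]
    · rfl
    · intro i _ hi
      have : (a - 0) i = 0 := ha i hi
      rw [this, pow_zero]
  have hdd : d ∣ ∏ i ∈ K, p i ^ a i := by
    rw [← hg, hd]
    exact Nat.gcd_dvd_right _ _
  have h2 : ∏ i ∈ K, qo p x v δ i (a i) = (∏ i ∈ K, qo p x v δ i 0) * d := by
    conv_rhs => rw [← Back_parts hp hco a K d hdd]
    rw [← Finset.prod_mul_distrib]
    refine Finset.prod_congr rfl fun i _ => ?_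
    have h3 : qo p x v δ i 0 = qp (p i) (addOrderOf (bt p x v δ 0)) :=
      (qp_order p hp hco x v δ h0 0 (fun j => Nat.zero_le _) i).symm
    rw [← qp_order p hp hco x v δ h0 a hav i, h3, h1, Back_mul (hp0 i) h0.ne' hd0]
  rw [h2, h1]
  ring

theorem cb_le (p : ι → ℕ) (x : UnitAddCircle) (v : ι → ℕ) (δ θ : ℝ) (i : ι) :
    cb p x v δ θ i ≤ v i := Nat.findGreatest_le _

theorem order_bound (p : ι → ℕ) (hp : ∀ i, 2 ≤ p i)
    (hco : Pairwise fun i j => Nat.Coprime (p i) (p j))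
    (x : UnitAddCircle) (v : ι → ℕ) (δ θ : ℝ) (h0 : 0 < addOrderOf (bt p x v δ 0))
    (K : Finset ι) (hK : ∀ i ∈ K, (qo p x v δ i 0 : ℝ) ≤ θ)
    (w : ι → ℕ) (hw : ∀ i, i ∉ K → w i = 0) (hav : rst K (cb p x v δ θ) + w ≤ v) :
    (addOrderOf (bt p x v δ (rst K (cb p x v δ θ) + w)) : ℝ) ≤
      addOrderOf (bt p x v δ 0) * θ ^ K.card * (gg p w : ℝ) := by
  obtain ⟨a, haeq⟩ : ∃ a, a = rst K (cb p x v δ θ) + w := ⟨_, rfl⟩
  rw [← haeq] at hav ⊢
  have ha : ∀ i, i ∉ K → a i = 0 := by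
    intro i hi
    rw [haeq]
    show (if i ∈ K then cb p x v δ θ i else 0) + w i = 0
    rw [if_neg hi, hw i hi]
  have haK : ∀ i ∈ K, a i = cb p x v δ θ i + w i := by
    intro i hi
    rw [haeq]
    show (if i ∈ K then cb p x v δ θ i else 0) + w i = _
    rw [if_pos hi]
  have h1 := order_prod p hp hco x v δ h0 K a ha hav
  have h2 : (∏ i ∈ K, (qo p x v δ i (a i) : ℝ)) ≤ ∏ i ∈ K, ((p i : ℝ) ^ w i * θ) := by
    refine Finset.prod_le_prod (fun i _ => Nat.cast_nonneg _) fun i hi => ?_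
    have h3 := qo_step p hp x v δ h0 i (cb p x v δ θ i) (a i) (by rw [haK i hi]; omega) (hav i)
    have h4 : (qo p x v δ i (cb p x v δ θ i) : ℝ) ≤ θ :=
      Nat.findGreatest_spec (P := fun n => (qo p x v δ i n : ℝ) ≤ θ) (Nat.zero_le _) (hK i hi)
    have h5 : a i - cb p x v δ θ i = w i := by rw [haK i hi]; omega
    rw [h5] at h3
    have h6 : (qo p x v δ i (a i) : ℝ) ≤ (p i : ℝ) ^ w i * qo p x v δ i (cb p x v δ θ i) := by
      exact_mod_cast h3
    exact h6.trans (mul_le_mul_of_nonneg_left h4 (by positivity))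
  have h3 : ∏ i ∈ K, ((p i : ℝ) ^ w i * θ) = θ ^ K.card * (gg p w : ℝ) := by
    rw [Finset.prod_mul_distrib, Finset.prod_const, mul_comm]
    congr 1
    unfold gg
    push_cast
    refine Finset.prod_subset (Finset.subset_univ K) fun i _ hi => ?_
    rw [hw i hi, pow_zero]
  have h4 : (1 : ℝ) ≤ ∏ i ∈ K, (qo p x v δ i 0 : ℝ) := by
    have : 1 ≤ ∏ i ∈ K, qo p x v δ i 0 :=
      Finset.one_le_prod' fun i _ => qo_pos p hp x v δ h0 i 0 (Nat.zero_le _)
    exact_mod_cast this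
  have h5 : (addOrderOf (bt p x v δ a) : ℝ) * ∏ i ∈ K, (qo p x v δ i 0 : ℝ) =
      addOrderOf (bt p x v δ 0) * ∏ i ∈ K, (qo p x v δ i (a i) : ℝ) := by
    exact_mod_cast h1
  calc (addOrderOf (bt p x v δ a) : ℝ)
      ≤ addOrderOf (bt p x v δ a) * ∏ i ∈ K, (qo p x v δ i 0 : ℝ) :=
        le_mul_of_one_le_right (Nat.cast_nonneg _) h4
    _ = addOrderOf (bt p x v δ 0) * ∏ i ∈ K, (qo p x v δ i (a i) : ℝ) := h5
    _ ≤ addOrderOf (bt p x v δ 0) * (θ ^ K.card * (gg p w : ℝ)) := by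
        rw [← h3]
        exact mul_le_mul_of_nonneg_left h2 (Nat.cast_nonneg _)
    _ = _ := by ring

theorem dep_eq (p : ι → ℕ) (hp : ∀ i, 2 ≤ p i)
    (hco : Pairwise fun i j => Nat.Coprime (p i) (p j))
    (x : UnitAddCircle) (v : ι → ℕ) (δ θ : ℝ) (h0 : 0 < addOrderOf (bt p x v δ 0))
    (K : Finset ι) (hK : ∀ i ∈ K, (qo p x v δ i 0 : ℝ) ≤ θ)
    (w : ι → ℕ) (hav : rst K (cb p x v δ θ) + w ≤ v) (i : ι) (hi : i ∈ K) :
    dep (p i) θ (bt p x v δ (rst K (cb p x v δ θ) + w)) = w i := by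
  obtain ⟨a, haeq⟩ : ∃ a, a = rst K (cb p x v δ θ) + w := ⟨_, rfl⟩
  rw [← haeq] at hav ⊢
  have haK : a i = cb p x v δ θ i + w i := by
    rw [haeq]
    show (if i ∈ K then cb p x v δ θ i else 0) + w i = _
    rw [if_pos hi]
  have hstep : ∀ n, n ≤ a i → qp (p i) (addOrderOf (p i ^ n • bt p x v δ a)) =
      qo p x v δ i (a i - n) := by
    intro n hn
    have hle : (Pi.single i n : ι → ℕ) ≤ a := Back_le hn
    have hba : a - Pi.single i n ≤ a := fun j => Nat.sub_le _ _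
    have h1 : a - (a - Pi.single i n) = Pi.single i n := by
      funext j
      have h2 : (Pi.single i n : ι → ℕ) j ≤ a j := hle j
      simp only [Pi.sub_apply]
      omega
    have h3 := bt_rel p hp x v δ a (a - Pi.single i n) hba hav
    rw [h1, Back_gg] at h3
    rw [h3, qp_order p hp hco x v δ h0 _ (hba.trans hav) i]
    simp only [Pi.sub_apply, Pi.single_eq_same]
  have hmem : w i ∈ {n : ℕ | (qp (p i) (addOrderOf (p i ^ n • bt p x v δ a)) : ℝ) ≤ θ} := by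
    show (qp (p i) (addOrderOf (p i ^ w i • bt p x v δ a)) : ℝ) ≤ θ
    rw [hstep _ (by omega)]
    have h5 : a i - w i = cb p x v δ θ i := by omega
    rw [h5]
    exact Nat.findGreatest_spec (P := fun n => (qo p x v δ i n : ℝ) ≤ θ) (Nat.zero_le _) (hK i hi)
  refine le_antisymm (Nat.sInf_le hmem) ?_
  by_contra hlt
  rw [not_le] at hlt
  have h6 : (qp (p i) (addOrderOf (p i ^ (dep (p i) θ (bt p x v δ a)) • bt p x v δ a)) : ℝ) ≤ θ :=
    Nat.sInf_mem ⟨_, hmem⟩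
  rw [hstep _ (by omega)] at h6
  refine Nat.findGreatest_is_greatest (P := fun n => (qo p x v δ i n : ℝ) ≤ θ) (n := v i)
    (k := a i - dep (p i) θ (bt p x v δ a)) ?_ ?_ h6
  · have h7 : Nat.findGreatest (fun n => (qo p x v δ i n : ℝ) ≤ θ) (v i) = cb p x v δ θ i := rfl
    rw [h7]
    omega
  · exact (Nat.sub_le _ _).trans (hav i)

theorem dep_zero (p : ι → ℕ) (hp : ∀ i, 2 ≤ p i)
    (hco : Pairwise fun i j => Nat.Coprime (p i) (p j))
    (x : UnitAddCircle) (v : ι → ℕ) (δ θ : ℝ) (h0 : 0 < addOrderOf (bt p x v δ 0))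
    (K : Finset ι) (w : ι → ℕ) (hw : ∀ i, i ∉ K → w i = 0)
    (hav : rst K (cb p x v δ θ) + w ≤ v) (i : ι) (hi : i ∉ K)
    (hq : (qo p x v δ i 0 : ℝ) ≤ θ) :
    dep (p i) θ (bt p x v δ (rst K (cb p x v δ θ) + w)) = 0 := by
  obtain ⟨a, haeq⟩ : ∃ a, a = rst K (cb p x v δ θ) + w := ⟨_, rfl⟩
  rw [← haeq] at hav ⊢
  have haK : a i = 0 := by
    rw [haeq]
    show (if i ∈ K then cb p x v δ θ i else 0) + w i = _
    rw [if_neg hi, hw i hi]
  have hmem : 0 ∈ {n : ℕ | (qp (p i) (addOrderOf (p i ^ n • bt p x v δ a)) : ℝ) ≤ θ} := by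
    show (qp (p i) (addOrderOf (p i ^ 0 • bt p x v δ a)) : ℝ) ≤ θ
    rw [pow_zero, one_smul, qp_order p hp hco x v δ h0 a hav i, haK]
    exact hq
  exact Nat.le_zero.1 (Nat.sInf_le hmem)

theorem card_sb_le (p : ι → ℕ) (hp : ∀ i, 2 ≤ p i)
    (hco : Pairwise fun i j => Nat.Coprime (p i) (p j))
    (x : UnitAddCircle) (v : ι → ℕ) (δ θ : ℝ) (h0 : 0 < addOrderOf (bt p x v δ 0))
    (B s : ℕ) (hB : addOrderOf (bt p x v δ 0) ≤ B) (hθ : 1 ≤ θ) (hθs : (B : ℝ) ≤ θ ^ s)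
    (U : Finset ι) : (sb p x v δ θ U).card ≤ s := by
  by_contra hlt
  rw [not_le] at hlt
  obtain ⟨W, hW⟩ : ∃ W, W = sb p x v δ θ U := ⟨_, rfl⟩
  rw [← hW] at hlt
  have hWq : ∀ i ∈ W, θ < (qo p x v δ i 0 : ℝ) := by
    intro i hi
    rw [hW] at hi
    unfold sb at hi
    exact (Finset.mem_filter.1 hi).2
  have h3 : ∀ i, qo p x v δ i 0 = qp (p i) (addOrderOf (bt p x v δ 0)) := fun i =>
    (qp_order p hp hco x v δ h0 0 (fun j => Nat.zero_le _) i).symm
  have hdvd : ∀ V : Finset ι, ∏ i ∈ V, qo p x v δ i 0 ∣ addOrderOf (bt p x v δ 0) := by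
    intro V
    induction V using Finset.induction_on with
    | empty => simp
    | insert k V hk ih =>
      rw [Finset.prod_insert hk]
      refine Nat.Coprime.mul_dvd_of_dvd_of_dvd ?_ ?_ ih
      · refine Nat.Coprime.prod_right fun i hi => ?_
        have hne : k ≠ i := fun h => hk (h ▸ hi)
        rw [h3, h3]
        refine Nat.Coprime.coprime_dvd_left (Nat.gcd_dvd_right _ _) ?_
        refine Nat.Coprime.coprime_dvd_right (Nat.gcd_dvd_right _ _) ?_
        exact ((hco hne).pow_left _).pow_right _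
      · rw [h3]
        exact qp_dvd _ _
  have h4 : (∏ i ∈ W, (qo p x v δ i 0 : ℝ)) ≤ B := by
    have := (Nat.le_of_dvd h0 (hdvd W)).trans hB
    exact_mod_cast this
  have hne : W.Nonempty := Finset.card_pos.1 (by omega)
  have h5 : (∏ _i ∈ W, θ) < ∏ i ∈ W, (qo p x v δ i 0 : ℝ) :=
    Finset.prod_lt_prod_of_nonempty (fun i _ => by linarith) hWq hne
  rw [Finset.prod_const] at h5
  have h6 : θ ^ s ≤ θ ^ W.card := pow_le_pow_right₀ hθ hlt.le
  linarith

theorem order_run (p : ι → ℕ) (hp : ∀ i, 2 ≤ p i)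
    (hco : Pairwise fun i j => Nat.Coprime (p i) (p j))
    (x : UnitAddCircle) (v : ι → ℕ) (δ θ : ℝ) (h0 : 0 < addOrderOf (bt p x v δ 0)) (i : ι)
    (hi : (qo p x v δ i 0 : ℝ) ≤ θ) (n : ℕ) (hn : n ≤ cb p x v δ θ i) :
    addOrderOf (bt p x v δ 0) ≤ addOrderOf (bt p x v δ (Pi.single i n)) ∧
      (addOrderOf (bt p x v δ (Pi.single i n)) : ℝ) ≤ addOrderOf (bt p x v δ 0) * θ := by
  have hcv : cb p x v δ θ i ≤ v i := cb_le p x v δ θ i
  have hnv : (Pi.single i n : ι → ℕ) ≤ v := Back_le (hn.trans hcv)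
  have hz : (0 : ι → ℕ) ≤ Pi.single i n := fun j => Nat.zero_le _
  have ha0 := (order_pos p hp x v δ h0 _ hnv).ne'
  refine ⟨?_, ?_⟩
  · rw [order_mul p hp x v δ _ 0 hz hnv]
    exact Nat.le_mul_of_pos_right _ (Nat.pos_of_ne_zero (Nat.gcd_ne_zero_left ha0))
  · have h1 := order_prod p hp hco x v δ h0 {i} (Pi.single i n)
      (fun j hj => Pi.single_eq_of_ne (fun h => hj (Finset.mem_singleton.2 h)) _) hnv
    rw [Finset.prod_singleton, Finset.prod_singleton, Pi.single_eq_same] at h1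
    have h2 : (qo p x v δ i (cb p x v δ θ i) : ℝ) ≤ θ :=
      Nat.findGreatest_spec (P := fun n => (qo p x v δ i n : ℝ) ≤ θ) (Nat.zero_le _) hi
    have h3 := qo_mono p hp x v δ h0 i n _ hn hcv
    have h4 : (qo p x v δ i n : ℝ) ≤ θ := le_trans (by exact_mod_cast h3) h2
    have h5 : (1 : ℝ) ≤ qo p x v δ i 0 := by
      exact_mod_cast qo_pos p hp x v δ h0 i 0 (Nat.zero_le _)
    have h6 : (addOrderOf (bt p x v δ (Pi.single i n)) : ℝ) * qo p x v δ i 0 =
        addOrderOf (bt p x v δ 0) * qo p x v δ i n := by exact_mod_cast h1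
    calc (addOrderOf (bt p x v δ (Pi.single i n)) : ℝ)
        ≤ addOrderOf (bt p x v δ (Pi.single i n)) * qo p x v δ i 0 :=
          le_mul_of_one_le_right (Nat.cast_nonneg _) h5
      _ = addOrderOf (bt p x v δ 0) * qo p x v δ i n := h6
      _ ≤ _ := mul_le_mul_of_nonneg_left h4 (Nat.cast_nonneg _)

/-- the distance: `x_{v-a} = τ_a + δ / g_a`. -/
theorem dist_bt (p : ι → ℕ) (hp : ∀ i, 2 ≤ p i) (x : UnitAddCircle) (v : ι → ℕ) (δ : ℝ)
    (c w : ι → ℕ) :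
    ‖gg p (v - (c + w)) • x - bt p x v δ (c + w)‖ * (gg p w : ℝ) ≤
      |δ| * Real.exp (-wt p c) := by
  have h1 : gg p (v - (c + w)) • x - bt p x v δ (c + w) =
      ((δ / (gg p (c + w) : ℝ) : ℝ) : UnitAddCircle) := by
    unfold bt
    abel
  have h2 : ‖((δ / (gg p (c + w) : ℝ) : ℝ) : UnitAddCircle)‖ ≤ |δ| / (gg p (c + w) : ℝ) := by
    refine QuotientAddGroup.norm_mk_le_norm.trans (le_of_eq ?_)
    rw [Real.norm_eq_abs, abs_div, Nat.abs_cast]
  have h3 : (0 : ℝ) < gg p w := by exact_mod_cast gg_pos hp w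
  have h4 : (0 : ℝ) < gg p c := by exact_mod_cast gg_pos hp c
  rw [h1]
  refine (mul_le_mul_of_nonneg_right h2 h3.le).trans (le_of_eq ?_)
  rw [Real.exp_neg, ← gg_eq_exp hp, gg_add, Nat.cast_mul]
  field_simp

end Furst96.Spw
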