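import Pool.Agent.H.MP_96e181_an.spw.Back
import Pool.Agent.H.MP_96e181_an.spz.ClassComb

/-! # Module ClassBound: the pairs `(v, K)` with `m ≤ wt (rst K cb) ≤ M`

As `spz/ClassBound.lean` (copy it), with these changes.  `D = B² e^W`, `r = ρ B e^{-m}`;
`F v' i = dep (p i) θ τ` for the point `τ` with `0 < ord τ ≤ D`, `‖g_{v'} x - τ‖ ord τ ≤ r` (zero if
there is none).  For `a = rst K cb + w`, `τ = bt a`: by `order_bound`
`ord τ ≤ ord(bt 0) θ^k g_w ≤ B · B · e^W`, and with `dist_bt`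
`‖..‖ ord τ ≤ ‖..‖ g_w · θ^k ord(bt 0) ≤ B |δ| ord(bt 0) e^{-wt (rst K cb)} ≤ B ρ e^{-m}`.
`F v' i = w_i` for `i ∈ K` by `dep_eq` (`K` disjoint from `sb`, so `qo i 0 ≤ θ`), and `F v' i = 0` for
`i ∈ U \ (K ∪ sb)` by `dep_zero`. -/

set_option autoImplicit false

open MeasureTheory

namespace Furst96.Spw

open Furst96.Sps Furst96.Spz

variable {ι : Type*} [Fintype ι] [DecidableEq ι]

/-- `τ` is a point of finite order near `g_{v'} x` -/
private def ClassBound_Good (p : ι → ℕ) (x : UnitAddCircle) (D r : ℝ) (v' : ι → ℕ)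
    (τ : UnitAddCircle) : Prop :=
  0 < addOrderOf τ ∧ (addOrderOf τ : ℝ) ≤ D ∧ ‖gg p v' • x - τ‖ * addOrderOf τ ≤ r

open Classical in
/-- the depths of the point near `g_{v'} x` -/
private noncomputable def ClassBound_F (p : ι → ℕ) (θ : ℝ) (x : UnitAddCircle) (D r : ℝ)
    (v' : ι → ℕ) (i : ι) : ℕ :=
  if h : ∃ τ, ClassBound_Good p x D r v' τ then dep (p i) θ h.choose else 0

private theorem ClassBound_F_eq (p : ι → ℕ) (θ : ℝ) (x : UnitAddCircle) (D r : ℝ)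
    (hDr : 2 * r * D < 1) (v' : ι → ℕ) (τ : UnitAddCircle) (h : ClassBound_Good p x D r v' τ)
    (i : ι) : ClassBound_F p θ x D r v' i = dep (p i) θ τ := by
  have hex : ∃ τ, ClassBound_Good p x D r v' τ := ⟨τ, h⟩
  obtain ⟨h1, h2, h3⟩ := hex.choose_spec
  have h4 : hex.choose = τ := near_unique (gg p v' • x) hex.choose τ D r h1 h.1 h2 h.2.1 h3 h.2.2 hDr
  unfold ClassBound_F
  rw [dif_pos hex, h4]

/-- the point `bt` at `rst K cb + w` is near `g_{v - a} x` -/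
private theorem ClassBound_good (p : ι → ℕ) (hp : ∀ i, 2 ≤ p i)
    (hco : Pairwise fun i j => Nat.Coprime (p i) (p j)) (x : UnitAddCircle) (B k : ℕ)
    (ρ m W θ : ℝ) (hρ0 : 0 ≤ ρ) (hθ : 1 ≤ θ) (hθk : θ ^ k ≤ B) (v : ι → ℕ) (δ : ℝ)
    (h0 : 0 < addOrderOf (bt p x v δ 0)) (hB : addOrderOf (bt p x v δ 0) ≤ B)
    (hρ : (addOrderOf (bt p x v δ 0) : ℝ) * |δ| ≤ ρ) (K : Finset ι) (hKk : K.card = k)
    (hK : ∀ i ∈ K, (qo p x v δ i 0 : ℝ) ≤ θ)
    (hm : m ≤ wt p (rst K (cb p x v δ θ))) (w : ι → ℕ) (hw : ∀ i, i ∉ K → w i = 0)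
    (hW : wt p w ≤ W) (hav : rst K (cb p x v δ θ) + w ≤ v) :
    ClassBound_Good p x ((B : ℝ) ^ 2 * Real.exp W) (ρ * B * Real.exp (-m))
      (v - (rst K (cb p x v δ θ) + w)) (bt p x v δ (rst K (cb p x v δ θ) + w)) := by
  have ho := order_bound p hp hco x v δ θ h0 K hK w hw hav
  rw [hKk] at ho
  have hge : (gg p w : ℝ) = Real.exp (wt p w) := gg_eq_exp hp w
  have hB0 : (0 : ℝ) ≤ B := Nat.cast_nonneg _
  have hθ0 : (0 : ℝ) ≤ θ ^ k := by positivity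
  have hO : (addOrderOf (bt p x v δ 0) : ℝ) ≤ B := by exact_mod_cast hB
  refine ⟨order_pos p hp x v δ h0 _ hav, ?_, ?_⟩
  · refine ho.trans ?_
    rw [hge]
    calc (addOrderOf (bt p x v δ 0) : ℝ) * θ ^ k * Real.exp (wt p w)
        ≤ (B : ℝ) * B * Real.exp W := by
          refine mul_le_mul (mul_le_mul hO hθk hθ0 hB0) (Real.exp_le_exp.2 hW)
            (Real.exp_pos _).le (mul_nonneg hB0 hB0)
      _ = (B : ℝ) ^ 2 * Real.exp W := by ring
  · have hd := dist_bt p hp x v δ (rst K (cb p x v δ θ)) w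
    obtain ⟨t, ht⟩ : ∃ t, t = ‖gg p (v - (rst K (cb p x v δ θ) + w)) • x -
      bt p x v δ (rst K (cb p x v δ θ) + w)‖ := ⟨_, rfl⟩
    rw [← ht] at hd ⊢
    have ht0 : 0 ≤ t := by
      rw [ht]
      exact norm_nonneg _
    calc t * (addOrderOf (bt p x v δ (rst K (cb p x v δ θ) + w)) : ℝ)
        ≤ t * ((addOrderOf (bt p x v δ 0) : ℝ) * θ ^ k * (gg p w : ℝ)) :=
          mul_le_mul_of_nonneg_left ho ht0
      _ = (addOrderOf (bt p x v δ 0) : ℝ) * θ ^ k * (t * (gg p w : ℝ)) := by ring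
      _ ≤ (addOrderOf (bt p x v δ 0) : ℝ) * θ ^ k *
          (|δ| * Real.exp (-wt p (rst K (cb p x v δ θ)))) :=
          mul_le_mul_of_nonneg_left hd (mul_nonneg (Nat.cast_nonneg _) hθ0)
      _ = ((addOrderOf (bt p x v δ 0) : ℝ) * |δ|) * θ ^ k *
          Real.exp (-wt p (rst K (cb p x v δ θ))) := by ring
      _ ≤ ρ * B * Real.exp (-m) := by
          refine mul_le_mul (mul_le_mul hρ hθk hθ0 hρ0) (Real.exp_le_exp.2 (neg_le_neg hm))
            (Real.exp_pos _).le (mul_nonneg hρ0 hB0)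

theorem class_bound (p : ι → ℕ) (hp : ∀ i, 2 ≤ p i)
    (hco : Pairwise fun i j => Nat.Coprime (p i) (p j))
    (x : UnitAddCircle) (V k s q B : ℕ) (U : Finset ι) (ρ m M W θ : ℝ) (hρ : 0 ≤ ρ)
    (hθ : 1 ≤ θ) (hθk : θ ^ k ≤ B)
    (S : Finset (ι → ℕ)) (hS : S ⊆ box ι V) (δ : (ι → ℕ) → ℝ)
    (hd : ∀ v ∈ S, 0 < addOrderOf (bt p x v (δ v) 0) ∧ addOrderOf (bt p x v (δ v) 0) ≤ B ∧
      (addOrderOf (bt p x v (δ v) 0) : ℝ) * |δ v| ≤ ρ)
    (hsb : ∀ v ∈ S, (sb p x v (δ v) θ U).card ≤ s)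
    (Kc : (ι → ℕ) → Finset (Finset ι))
    (hK : ∀ v ∈ S, ∀ K ∈ Kc v, K ⊆ U ∧ K.card = k ∧ Disjoint K (sb p x v (δ v) θ U) ∧
      m ≤ wt p (rst K (cb p x v (δ v) θ)) ∧ wt p (rst K (cb p x v (δ v) θ)) ≤ M)
    (hint : ∀ v ∈ S, ∀ K ∈ Kc v, ∀ w ∈ simp1 p K W, rst K (cb p x v (δ v) θ) + w ≤ v)
    (hu : 2 * (ρ * B * Real.exp (-m)) * ((B : ℝ) ^ 2 * Real.exp W) < 1)
    (hq : ∀ K ⊆ U, K.card = k →
      (simp0 p K M).card ≤ q ^ k * (simp1 p K W).card ∧ 0 < (simp1 p K W).card) :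
    ∑ v ∈ S, (Kc v).card ≤ q ^ k * (k + s).choose k * V ^ Fintype.card ι := by
  refine class_comb p hp V k s q M W U S hS (fun v => cb p x v (δ v) θ) Kc
    (ClassBound_F p θ x ((B : ℝ) ^ 2 * Real.exp W) (ρ * B * Real.exp (-m))) ?_ ?_ hq
  · intro v hv K hKv
    obtain ⟨h1, h2, -, -, h5⟩ := hK v hv K hKv
    exact ⟨h1, h2, h5⟩
  · intro v hv K hKv w hw
    obtain ⟨k1, k2, k3, k4, -⟩ := hK v hv K hKv
    obtain ⟨w1, -, w3⟩ := (mem_simp1 hp).1 hw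
    obtain ⟨d1, d2, d3⟩ := hd v hv
    have hav := hint v hv K hKv w hw
    have hle : ∀ i ∈ U, i ∉ sb p x v (δ v) θ U → (qo p x v (δ v) i 0 : ℝ) ≤ θ := by
      intro i hi hi2
      by_contra hcon
      exact hi2 (Finset.mem_filter.2 ⟨hi, not_le.1 hcon⟩)
    have hKq : ∀ i ∈ K, (qo p x v (δ v) i 0 : ℝ) ≤ θ := fun i hi =>
      hle i (k1 hi) (Finset.disjoint_left.1 k3 hi)
    have hgood := ClassBound_good p hp hco x B k ρ m W θ hρ hθ hθk v (δ v) d1 d2 d3 K k2 hKq k4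
      w w1 w3 hav
    have hFe : ∀ i, ClassBound_F p θ x ((B : ℝ) ^ 2 * Real.exp W) (ρ * B * Real.exp (-m))
        (v - (rst K (cb p x v (δ v) θ) + w)) i =
        dep (p i) θ (bt p x v (δ v) (rst K (cb p x v (δ v) θ) + w)) := fun i =>
      ClassBound_F_eq p θ x _ _ hu _ _ hgood i
    refine ⟨hav, ?_, ?_⟩
    · intro i hi
      rw [hFe i]
      exact dep_eq p hp hco x v (δ v) θ d1 K hKq w hav i hi
    · have hsub : (U.filter fun i => ClassBound_F p θ x ((B : ℝ) ^ 2 * Real.exp W)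
          (ρ * B * Real.exp (-m)) (v - (rst K (cb p x v (δ v) θ) + w)) i ≠ 0) ⊆
          K ∪ sb p x v (δ v) θ U := by
        intro i hi
        rw [Finset.mem_filter, hFe i] at hi
        rw [Finset.mem_union]
        by_contra hcon
        rw [not_or] at hcon
        exact hi.2 (dep_zero p hp hco x v (δ v) θ d1 K w w1 hav i hcon.1 (hle i hi.1 hcon.2))
      calc _ ≤ (K ∪ sb p x v (δ v) θ U).card := Finset.card_le_card hsub
        _ ≤ K.card + (sb p x v (δ v) θ U).card := Finset.card_union_le _ _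
        _ ≤ k + s := by
          have := hsb v hv
          omega

end Furst96.Spw
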