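import Pool.Agent.H.MP_96e181_an.spz.Tors

/-! # Module Defs: the part of the order made of the primes of `p_i`, and depths

`p : ι → ℕ` is a family of pairwise coprime integers `≥ 2`.  `qp q n` is the part of `n > 0` composed
of the primes dividing `q`.  For `x`, `v`, `δ` fixed, `qo i n` is the `p_i`-part of the order of
`bt (n e_i)` (it is nondecreasing in `n`).  `θ ≥ 1` is a threshold. -/

set_option autoImplicit false

namespace Furst96.Spw

open Furst96.Sps Furst96.Spz

variable {ι : Type*} [Fintype ι] [DecidableEq ι]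

/-- the part of `n` composed of the primes which divide `q` (for `n > 0`). -/
def qp (q n : ℕ) : ℕ := Nat.gcd n (q ^ n)

/-- the `p_i`-part of the order of `bt` at `n e_i`. -/
noncomputable def qo (p : ι → ℕ) (x : UnitAddCircle) (v : ι → ℕ) (δ : ℝ) (i : ι) (n : ℕ) : ℕ :=
  qp (p i) (addOrderOf (bt p x v δ (Pi.single i n)))

open Classical in
/-- how far one can go back in the direction `i` with a `p_i`-part at most `θ`. -/
noncomputable def cb (p : ι → ℕ) (x : UnitAddCircle) (v : ι → ℕ) (δ θ : ℝ) (i : ι) : ℕ :=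
  Nat.findGreatest (fun n => (qo p x v δ i n : ℝ) ≤ θ) (v i)

open Classical in
/-- the directions in `U` with a `p_i`-part larger than `θ`. -/
noncomputable def sb (p : ι → ℕ) (x : UnitAddCircle) (v : ι → ℕ) (δ θ : ℝ) (U : Finset ι) :
    Finset ι :=
  U.filter fun i => θ < (qo p x v δ i 0 : ℝ)

/-- how many multiplications by `q` are needed to make the `q`-part of the order of `τ` at most
`θ`. -/
noncomputable def dep (q : ℕ) (θ : ℝ) (τ : UnitAddCircle) : ℕ :=
  sInf {n : ℕ | (qp q (addOrderOf (q ^ n • τ)) : ℝ) ≤ θ}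

theorem qp_dvd (q n : ℕ) : qp q n ∣ n := Nat.gcd_dvd_left _ _

theorem qp_pos (q : ℕ) {n : ℕ} (hn : 0 < n) : 0 < qp q n := Nat.gcd_pos_of_pos_left _ hn

end Furst96.Spw
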