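import Pool.Agent.H.MP_96e181_an.spw.PhiPack
import Pool.Agent.H.MP_96e181_an.spz.ExistsQ

/-! # Module PhiBound: the family of multipliers

`i₀` of `exists_Q`, `i₁` of `sum_sf_small` for `η`, `a = max i₀ i₁`, `m₀ = 2^a`.  For large `w` let
`b = Nat.log 2 (3 w) + 1` (`2^b > 3w`, `2^b ≤ 6w`), `n = b - a`; for `i < n` let `Qi i` be the set of
`exists_Q` at the scale `a + i` with `y = 2^(3w)`, say (the hypothesis `300 sf (a+i) ≤ A(2^(3w))`
follows from `exists_Q` at... from `h1` for large `w`: take `y = 2^2^(b/2) ≤ 2^w`),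
`Q = ⋃_{i<n} Qi i ⊆ P`, all elements `≤ 2^2^(b/2) ≤ 2^w`, `#Q ≤ b · 300 sf b ≤ w`.
`ι = ↥Q`, `p = Subtype.val`, `V = 2^(5 sf b + 18) 2^b`, `J = (↥Q → Fin V)`, `σ v = gg p v`.
`σ v ≤ ∏ q^V ≤ 2^(V #Q 2^(b/2)) ≤ 2^(w²/2)` for large `w` (`2^{5 sf b} ≤ 1024 b^{10}`, `b ≤ log₂(6w)`).
For `θ ≠ 0` with `s θ = 0`, `s ≤ 2^(3w)` prime to `Q`: `g_v θ ≠ 0` (else the order of `θ`, which
divides `s` and `g_v`, is `1`) and `s g_v θ = 0`, so `‖g_v θ‖ ≥ 1/s ≥ 2^{-3w} > 2^{-2^b}`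
(`norm_ge_of_torsion`).  Apply `phi_pack`. -/

set_option autoImplicit false

open MeasureTheory Filter

namespace Furst96.Spw

open Furst96.Sps Furst96.Spz

/-- a power is at most an exponential. -/
private theorem PhiBound_exp (C k : ℕ) : ∃ b₀ : ℕ, ∀ b, b₀ ≤ b → C * b ^ k ≤ 2 ^ (b / 2) := by
  have h := tendsto_pow_const_div_const_pow_of_one_lt k (show (1 : ℝ) < 2 by norm_num)
  have hpos : (0 : ℝ) < 1 / (C * 3 ^ k + 1) := by positivity
  obtain ⟨c₀, hc₀⟩ := eventually_atTop.1 (h.eventually (gt_mem_nhds hpos))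
  refine ⟨2 * c₀ + 2, fun b hb => ?_⟩
  have hc := hc₀ (b / 2) (by omega)
  have hb3 : b ≤ 3 * (b / 2) := by omega
  generalize b / 2 = c at hc hb3
  have h2 : (0 : ℝ) < 2 ^ c := by positivity
  have h3 : (0 : ℝ) < (C * 3 ^ k + 1 : ℝ) := by positivity
  rw [div_lt_div_iff₀ h2 h3, one_mul] at hc
  have h4 : c ^ k * (C * 3 ^ k + 1) < 2 ^ c := by exact_mod_cast hc
  calc C * b ^ k ≤ C * (3 * c) ^ k := Nat.mul_le_mul_left _ (Nat.pow_le_pow_left hb3 k)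
    _ = c ^ k * (C * 3 ^ k) := by rw [mul_pow]; ring
    _ ≤ c ^ k * (C * 3 ^ k + 1) := Nat.mul_le_mul_left _ (Nat.le_succ _)
    _ ≤ 2 ^ c := h4.le

/-- the number of primes is large enough. -/
private theorem PhiBound_log (b : ℕ) (hb : 2 ^ 15 ≤ b) (w : ℕ) (hw : 2 ^ b ≤ 6 * w) :
    ((300 * sf b : ℕ) : ℝ) ≤ 1000 * Real.log (Real.log (Real.log ((2 ^ w : ℕ) : ℝ))) := by
  have hl2 := Real.log_two_gt_d9
  have hl2' := Real.log_two_lt_d9
  have hbN : 32768 ≤ b := by simpa using hb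
  have hbR : (32768 : ℝ) ≤ (b : ℝ) := by exact_mod_cast hbN
  have hlogb : 15 * Real.log 2 ≤ Real.log b := by
    rw [show (15 : ℝ) = ((15 : ℕ) : ℝ) by norm_num, ← Real.log_pow]
    exact Real.log_le_log (by norm_num) (by norm_num; exact hbN)
  -- first logarithm
  have h1 : Real.log ((2 ^ w : ℕ) : ℝ) = w * Real.log 2 := by
    push_cast
    rw [Real.log_pow]
  have hwR : (2 : ℝ) ^ b ≤ 6 * w := by exact_mod_cast hw
  -- second logarithm
  have h2 : (b : ℝ) / 2 ≤ Real.log (w * Real.log 2) := by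
    have h3 : (2 : ℝ) ^ b * (1 / 9) ≤ w * Real.log 2 := by nlinarith
    have h4 : Real.log ((2 : ℝ) ^ b * (1 / 9)) ≤ Real.log (w * Real.log 2) :=
      Real.log_le_log (by positivity) h3
    rw [Real.log_mul (by positivity) (by norm_num), Real.log_pow] at h4
    have h5 : Real.log (1 / 9 : ℝ) ≥ -3 := by
      have h6 : Real.log (1 / 9 : ℝ) = - Real.log 9 := by rw [one_div, Real.log_inv]
      have h7 : Real.log 9 ≤ Real.log (2 ^ 4) := Real.log_le_log (by norm_num) (by norm_num)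
      rw [Real.log_pow] at h7
      rw [h6]
      push_cast at h7
      linarith
    have h8 : (b : ℝ) * 0.6931471803 ≤ b * Real.log 2 :=
      mul_le_mul_of_nonneg_left hl2.le (Nat.cast_nonneg b)
    linarith
  have h3 : Real.log b - Real.log 2 ≤ Real.log (Real.log (w * Real.log 2)) := by
    rw [← Real.log_div (by positivity) (by norm_num)]
    exact Real.log_le_log (by positivity) h2
  have h4 : ((Nat.log 2 b : ℕ) : ℝ) * Real.log 2 ≤ Real.log b := by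
    rw [← Real.log_pow]
    refine Real.log_le_log (by positivity) ?_
    exact_mod_cast Nat.pow_log_le_self 2 (by omega)
  rw [h1]
  unfold sf
  push_cast
  generalize (Nat.log 2 b : ℝ) = L at h4
  generalize Real.log (b : ℝ) = B at *
  generalize Real.log (Real.log (w * Real.log 2)) = Z at *
  generalize Real.log 2 = l at *
  have h5 : L * 0.693 ≤ B ∨ L < 0 := by
    by_cases hL : 0 ≤ L
    · left
      nlinarith
    · right
      linarith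
  rcases h5 with h5 | h5
  · nlinarith
  · nlinarith

/-- the bounds for large `b`. -/
private theorem PhiBound_grow : ∃ b₀ : ℕ, ∀ b, b₀ ≤ b → ∀ w : ℕ, 2 ^ b ≤ 6 * w →
    b * (300 * sf b) ≤ w ∧
    2 ^ (b / 2) * (2 ^ (5 * sf b + 18) * 2 ^ b) * (b * (300 * sf b)) ≤ w ^ 2 / 2 := by
  obtain ⟨b₁, hb₁⟩ := PhiBound_exp 7200 2
  obtain ⟨b₂, hb₂⟩ := PhiBound_exp (72 * (2 ^ 28 * 1200)) 12
  refine ⟨max 1 (max b₁ b₂), fun b hb w hw => ?_⟩
  have hb1 : 1 ≤ b := le_trans (le_max_left _ _) hb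
  have h1 := hb₁ b (le_trans (le_trans (le_max_left _ _) (le_max_right _ _)) hb)
  have h2 := hb₂ b (le_trans (le_trans (le_max_right _ _) (le_max_right _ _)) hb)
  have hs : sf b ≤ 4 * b := by
    unfold sf
    have := Nat.log_le_self 2 b
    omega
  have h3 : b * (300 * sf b) ≤ 1200 * b ^ 2 :=
    calc b * (300 * sf b) ≤ b * (300 * (4 * b)) :=
          Nat.mul_le_mul_left _ (Nat.mul_le_mul_left _ hs)
      _ = 1200 * b ^ 2 := by ring
  have h4 : 2 ^ (b / 2) ≤ 2 ^ b := Nat.pow_le_pow_right (by norm_num) (by omega)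
  refine ⟨by omega, ?_⟩
  have h5 : 2 ^ (5 * sf b + 18) ≤ 2 ^ 28 * b ^ 10 :=
    calc 2 ^ (5 * sf b + 18) = (2 ^ sf b) ^ 5 * 2 ^ 18 := by rw [← pow_mul, ← pow_add]; ring_nf
      _ ≤ (4 * b ^ 2) ^ 5 * 2 ^ 18 :=
          Nat.mul_le_mul_right _ (Nat.pow_le_pow_left (two_pow_sf_le b hb1) 5)
      _ = 2 ^ 28 * b ^ 10 := by ring
  have h6 : 2 ^ (b / 2) * (2 ^ (5 * sf b + 18) * 2 ^ b) * (b * (300 * sf b)) ≤
      2 ^ (b / 2) * ((2 ^ 28 * b ^ 10) * 2 ^ b) * (1200 * b ^ 2) :=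
    Nat.mul_le_mul (Nat.mul_le_mul_left _ (Nat.mul_le_mul_right _ h5)) h3
  have h7 : 72 * (2 ^ (b / 2) * ((2 ^ 28 * b ^ 10) * 2 ^ b) * (1200 * b ^ 2)) ≤ (6 * w) ^ 2 :=
    calc 72 * (2 ^ (b / 2) * ((2 ^ 28 * b ^ 10) * 2 ^ b) * (1200 * b ^ 2)) =
          (2 ^ (b / 2) * 2 ^ b) * (72 * (2 ^ 28 * 1200) * b ^ 12) := by ring
      _ ≤ (2 ^ (b / 2) * 2 ^ b) * 2 ^ (b / 2) := Nat.mul_le_mul_left _ h2
      _ = 2 ^ (b / 2 + b + b / 2) := by rw [← pow_add, ← pow_add]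
      _ ≤ 2 ^ (b * 2) := Nat.pow_le_pow_right (by norm_num) (by omega)
      _ = (2 ^ b) ^ 2 := by rw [← pow_mul]
      _ ≤ (6 * w) ^ 2 := Nat.pow_le_pow_left hw 2
  rw [Nat.le_div_iff_mul_le (by norm_num)]
  rw [mul_pow] at h7
  generalize 2 ^ (b / 2) * (2 ^ (5 * sf b + 18) * 2 ^ b) * (b * (300 * sf b)) = X at *
  generalize 2 ^ (b / 2) * ((2 ^ 28 * b ^ 10) * 2 ^ b) * (1200 * b ^ 2) = Y at *
  generalize w ^ 2 = W at *
  omega

private theorem PhiBound_card {α : Type} (s : Finset α) (p : α → Prop) [DecidablePred p]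
    [DecidablePred fun a : ↥s => p a.1] :
    (Finset.univ.filter (fun a : ↥s => p a.1)).card = (s.filter p).card := by
  rw [← Finset.card_map (Function.Embedding.subtype (fun a => a ∈ s))]
  congr 1
  ext x
  simp [and_comm]

private theorem PhiBound_mem (Q : Finset ℕ) (v : ↥Q → ℕ) :
    gg (Subtype.val : ↥Q → ℕ) v ∈ Submonoid.closure (Q : Set ℕ) := by
  unfold gg
  exact Submonoid.prod_mem _ fun i _ => Submonoid.pow_mem _ (Submonoid.subset_closure i.2) _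

private theorem PhiBound_le (Q : Finset ℕ) (k V : ℕ) (hQ : ∀ q ∈ Q, q ≤ 2 ^ k) (v : ↥Q → ℕ)
    (hv : ∀ i, v i < V) : gg (Subtype.val : ↥Q → ℕ) v ≤ 2 ^ (k * V * Q.card) := by
  unfold gg
  calc ∏ i : ↥Q, (i : ℕ) ^ v i ≤ ∏ _i : ↥Q, 2 ^ (k * V) := by
        refine Finset.prod_le_prod (fun _ _ => Nat.zero_le _) fun i _ => ?_
        calc (i : ℕ) ^ v i ≤ (2 ^ k) ^ v i := Nat.pow_le_pow_left (hQ i i.2) _
          _ = 2 ^ (k * v i) := by rw [← pow_mul]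
          _ ≤ 2 ^ (k * V) := Nat.pow_le_pow_right (by norm_num)
              (Nat.mul_le_mul_left _ (hv i).le)
    _ = 2 ^ (k * V * Q.card) := by
        rw [Finset.prod_const, ← pow_mul, Finset.card_univ, Fintype.card_coe]

private theorem PhiBound_tors (Q : Finset ℕ) (v : ↥Q → ℕ) (θ : UnitAddCircle) (hθ : θ ≠ 0)
    (s : ℕ) (hs : 0 < s) (hsθ : s • θ = 0) (hco : ∀ q ∈ Q, Nat.Coprime q s) :
    1 / (s : ℝ) ≤ ‖gg (Subtype.val : ↥Q → ℕ) v • θ‖ := by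
  refine norm_ge_of_torsion s hs _ ?_ ?_
  · rw [smul_comm, hsθ, smul_zero]
  · intro h
    have h1 := addOrderOf_dvd_of_nsmul_eq_zero h
    have h2 := addOrderOf_dvd_of_nsmul_eq_zero hsθ
    have h3 : Nat.Coprime (gg (Subtype.val : ↥Q → ℕ) v) s :=
      Nat.Coprime.prod_left fun i _ => (hco i i.2).pow_left _
    have h4 := Nat.eq_one_of_dvd_coprimes h3 h1 h2
    exact hθ (AddMonoid.addOrderOf_eq_one_iff.1 h4)

open Classical in
theorem phi_bound (P : Set ℕ) (hP : ∀ p ∈ P, 2 ≤ p) (hcoP : P.Pairwise Nat.Coprime)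
    (h1 : ∀ᶠ y : ℕ in atTop, 1000 * Real.log (Real.log (Real.log y)) ≤
      ((P ∩ Set.Iic y).ncard : ℝ)) (η : ℝ) (hη : 0 < η) :
    ∃ m₀ : ℕ, 1 ≤ m₀ ∧ ∀ᶠ w : ℕ in atTop, ∃ Q : Finset ℕ,
      (∀ q ∈ Q, q ∈ P ∧ q ≤ 2 ^ w) ∧ Q.card ≤ w ∧
      ∃ (J : Type) (_ : Fintype J) (_ : Nonempty J) (σ : J → ℕ),
        (∀ a, σ a ∈ Submonoid.closure (Q : Set ℕ)) ∧ (∀ a, σ a ≤ 2 ^ (w ^ 2 / 2)) ∧
        ∀ θ : UnitAddCircle, θ ≠ 0 →
          (∃ s : ℕ, 0 < s ∧ s ≤ 2 ^ (3 * w) ∧ s • θ = 0 ∧ ∀ q ∈ Q, Nat.Coprime q s) →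
          ((Finset.univ.filter (fun a => ‖σ a • θ‖ < 1 / (2 : ℝ) ^ m₀)).card : ℝ) ≤
            η * Fintype.card J := by
  obtain ⟨i₀, hi₀, hQ⟩ := exists_Q P h1
  obtain ⟨i₁, hi₁⟩ := sum_sf_small η hη
  obtain ⟨b₀, hb₀⟩ := PhiBound_grow
  obtain ⟨a, hai₀, hai₁⟩ : ∃ a, i₀ ≤ a ∧ i₁ ≤ a := ⟨max i₀ i₁, le_max_left _ _, le_max_right _ _⟩
  refine ⟨2 ^ a, Nat.one_le_two_pow, ?_⟩
  obtain ⟨y₀, hy₀⟩ := eventually_atTop.1 h1
  obtain ⟨M, hM1, hM2, hM3, hM4⟩ : ∃ M : ℕ, b₀ ≤ M ∧ 2 ^ 15 ≤ M ∧ a ≤ M ∧ y₀ ≤ M :=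
    ⟨max (max b₀ (2 ^ 15)) (max a y₀), le_trans (le_max_left _ _) (le_max_left _ _),
      le_trans (le_max_right _ _) (le_max_left _ _), le_trans (le_max_left _ _) (le_max_right _ _),
      le_trans (le_max_right _ _) (le_max_right _ _)⟩
  filter_upwards [eventually_ge_atTop (2 ^ M)] with w hw
  have hw0 : M < w := lt_of_lt_of_le Nat.lt_two_pow_self hw
  obtain ⟨b, hb⟩ : ∃ b, b = Nat.log 2 (3 * w) + 1 := ⟨_, rfl⟩
  have hb1 : 3 * w < 2 ^ b := by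
    rw [hb]
    exact Nat.lt_pow_succ_log_self (by norm_num) _
  have hb2 : 2 ^ b ≤ 6 * w := by
    have h2 : 2 ^ Nat.log 2 (3 * w) ≤ 3 * w := Nat.pow_log_le_self 2 (by omega)
    rw [hb, pow_succ]
    omega
  have hMb : M < b := by
    rw [hb, Nat.lt_succ_iff]
    exact Nat.le_log_of_pow_le (by norm_num) (by omega)
  obtain ⟨hg1, hg2⟩ := hb₀ b (by omega) w hb2
  have hA : 300 * sf b ≤ (P ∩ Set.Iic (2 ^ w)).ncard := by
    have h2 := PhiBound_log b (by omega) w hb2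
    have h3 := hy₀ (2 ^ w) (by
      have : w < 2 ^ w := Nat.lt_two_pow_self
      omega)
    exact_mod_cast h2.trans h3
  obtain ⟨n, hn⟩ : ∃ n, n = b - a := ⟨_, rfl⟩
  have hsf : ∀ i, i < n → sf (a + i) ≤ sf b := fun i hi => sf_mono (by omega)
  have hex : ∀ i, ∃ Qi : Finset ℕ, i < n → (∀ q ∈ Qi, q ∈ P ∧ q ≤ 2 ^ w ∧
      q ≤ 2 ^ 2 ^ ((a + i) / 2)) ∧ Qi.card = 300 * sf (a + i) ∧
      400 * ∑ q ∈ Qi, Real.log q ≤ ((2 ^ (a + i) : ℕ) : ℝ) * Real.log 2 := by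
    intro i
    by_cases hi : i < n
    · obtain ⟨Qi, h2⟩ := hQ (a + i) (by omega) (2 ^ w)
        (le_trans (Nat.mul_le_mul_left _ (hsf i hi)) hA)
      exact ⟨Qi, fun _ => h2⟩
    · exact ⟨∅, fun h => absurd h hi⟩
  choose Qi hQi using hex
  obtain ⟨Q, hQd⟩ : ∃ Q : Finset ℕ, Q = (Finset.range n).biUnion Qi := ⟨_, rfl⟩
  have hmem : ∀ q ∈ Q, ∃ i < n, q ∈ Qi i := by
    intro q hq
    rw [hQd, Finset.mem_biUnion] at hq
    obtain ⟨i, hi, hq⟩ := hq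
    exact ⟨i, Finset.mem_range.1 hi, hq⟩
  have hsub : ∀ i < n, ∀ q ∈ Qi i, q ∈ Q := by
    intro i hi q hq
    rw [hQd, Finset.mem_biUnion]
    exact ⟨i, Finset.mem_range.2 hi, hq⟩
  have hcard : Q.card ≤ b * (300 * sf b) := by
    rw [hQd]
    refine (Finset.card_biUnion_le_card_mul _ _ (300 * sf b) fun i hi => ?_).trans ?_
    · rw [(hQi i (Finset.mem_range.1 hi)).2.1]
      exact Nat.mul_le_mul_left _ (hsf i (Finset.mem_range.1 hi))
    · rw [Finset.card_range]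
      exact Nat.mul_le_mul_right _ (by omega)
  have hQP : ∀ q ∈ Q, q ∈ P ∧ q ≤ 2 ^ w := by
    intro q hq
    obtain ⟨i, hi, hq⟩ := hmem q hq
    exact ⟨((hQi i hi).1 q hq).1, ((hQi i hi).1 q hq).2.1⟩
  have hQb : ∀ q ∈ Q, q ≤ 2 ^ 2 ^ (b / 2) := by
    intro q hq
    obtain ⟨i, hi, hq⟩ := hmem q hq
    refine (((hQi i hi).1 q hq).2.2).trans ?_
    exact Nat.pow_le_pow_right (by norm_num) (Nat.pow_le_pow_right (by norm_num) (by omega))
  obtain ⟨V, hV⟩ : ∃ V, V = 2 ^ (5 * sf b + 18) * 2 ^ b := ⟨_, rfl⟩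
  have hV0 : 0 < V := by rw [hV]; positivity
  refine ⟨Q, hQP, hcard.trans hg1, ↥(box ↥Q V), inferInstance, ⟨⟨0, mem_box.2 fun _ => hV0⟩⟩,
    fun v => gg (Subtype.val : ↥Q → ℕ) v.1, fun v => PhiBound_mem Q v.1, fun v => ?_, ?_⟩
  · refine (PhiBound_le Q (2 ^ (b / 2)) V hQb v.1 (mem_box.1 v.2)).trans ?_
    refine Nat.pow_le_pow_right (by norm_num) (le_trans ?_ hg2)
    rw [← hV]
    exact Nat.mul_le_mul_left _ hcard
  · rintro θ hθ ⟨s, hs0, hs1, hsθ, hco⟩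
    have hpk := phi_pack (Subtype.val : ↥Q → ℕ) (fun i => hP _ (hQP _ i.2).1)
      (fun i j hij => hcoP (hQP _ i.2).1 (hQP _ j.2).1 fun h => hij (Subtype.ext h)) V θ (2 ^ a) n (fun i => sf (i + a))
      (fun i => (Qi i).subtype (fun q => q ∈ Q)) (fun i _ => one_le_sf _) (fun i hi => ?_)
      (fun i hi => ?_) (fun i hi => ?_) (fun v _ => ?_)
    · have h2 : ((Finset.univ.filter (fun v : ↥(box ↥Q V) =>
          ‖gg (Subtype.val : ↥Q → ℕ) v.1 • θ‖ < 1 / (2 : ℝ) ^ 2 ^ a)).card : ℝ) =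
          (((box ↥Q V).filter fun v => ‖gg (Subtype.val : ↥Q → ℕ) v • θ‖ <
            1 / (2 : ℝ) ^ 2 ^ a).card : ℝ) := by
        rw [PhiBound_card (box ↥Q V)
          (fun v => ‖gg (Subtype.val : ↥Q → ℕ) v • θ‖ < 1 / (2 : ℝ) ^ 2 ^ a)]
      rw [h2]
      refine hpk.trans ?_
      rw [Fintype.card_coe (box ↥Q V), card_box]
      push_cast
      exact mul_le_mul_of_nonneg_right (hi₁ a hai₁ n) (by positivity)
    · rw [Finset.card_subtype, Finset.filter_true_of_mem (hsub i hi), (hQi i hi).2.1, add_comm]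
    · have h2 : ∑ j ∈ (Qi i).subtype (fun q => q ∈ Q), Real.log ((j : ℕ) : ℝ) =
          ∑ q ∈ Qi i, Real.log q :=
        Finset.sum_subtype_of_mem (fun q : ℕ => Real.log q) (hsub i hi)
      rw [h2]
      have h3 := (hQi i hi).2.2
      rwa [show 2 ^ (a + i) = 2 ^ i * 2 ^ a by rw [add_comm, pow_add]] at h3
    · rw [hV, ← pow_add 2 i a]
      refine Nat.mul_le_mul (Nat.pow_le_pow_right (by norm_num) ?_)
        (Nat.pow_le_pow_right (by norm_num) (by omega))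
      have := hsf i hi
      rw [add_comm a i] at this
      omega
    · have h2 := PhiBound_tors Q v θ hθ s hs0 hsθ hco
      refine lt_of_lt_of_le ?_ h2
      rw [← pow_add, hn, Nat.sub_add_cancel (by omega)]
      have h3 : s < 2 ^ 2 ^ b :=
        lt_of_le_of_lt hs1 (Nat.pow_lt_pow_right (by norm_num) hb1)
      have h4 : (s : ℝ) < (2 : ℝ) ^ 2 ^ b := by exact_mod_cast h3
      exact one_div_lt_one_div_of_lt (by exact_mod_cast hs0) h4

end Furst96.Spw
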