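import Pool.Agent.H.MP_96e181_an.spz.Defs
import Pool.Agent.H.MP_96e181_an.spx.Window

/-! # Module RemoveQ: windows of integers prime to a small set of primes

`closure_iic`: `Submonoid.closure_induction` for the predicate `x ↦ 0 < x ∧ ∀ Y, x ≤ Y → x ∈ closure
(P ∩ Iic Y)` (`x ≤ x y`, `y ≤ x y`).
`frequently_window_q`: `frequently_window` with the constant `C + 1` gives `T₀`; every `q ∈ P`
divides at most one element of the pairwise coprime `T₀`, so at most `#Q ≤ w ≤ w^4` elements of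
`T₀` are not prime to `Q`; take a subset of the others. -/

set_option autoImplicit false

open Filter

namespace Furst96.Spw

open Furst96.Spx

theorem closure_iic (P : Set ℕ) (hP : ∀ p ∈ P, 2 ≤ p) (s Y : ℕ) (hs : s ∈ Submonoid.closure P)
    (hY : s ≤ Y) : s ∈ Submonoid.closure (P ∩ Set.Iic Y) := by
  have key : 0 < s ∧ ∀ Y : ℕ, s ≤ Y → s ∈ Submonoid.closure (P ∩ Set.Iic Y) := by
    clear hY
    induction hs using Submonoid.closure_induction with
    | mem x hx =>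
      have h2 := hP x hx
      exact ⟨by omega, fun Y hY => Submonoid.subset_closure ⟨hx, hY⟩⟩
    | one => exact ⟨one_pos, fun Y _ => Submonoid.one_mem _⟩
    | mul x y _ _ hx hy =>
      refine ⟨Nat.mul_pos hx.1 hy.1, fun Y hY => Submonoid.mul_mem _ (hx.2 Y ?_) (hy.2 Y ?_)⟩
      · exact (Nat.le_mul_of_pos_right x hy.1).trans hY
      · exact (Nat.le_mul_of_pos_left y hx.1).trans hY
  exact key.2 Y hY

/-- an element of `P` is prime to an element of the semigroup, or divides it. -/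
theorem coprime_or_dvd (P : Set ℕ) (hco : P.Pairwise Nat.Coprime) (s : ℕ)
    (hs : s ∈ Submonoid.closure P) (q : ℕ) (hq : q ∈ P) : Nat.Coprime q s ∨ q ∣ s := by
  induction hs using Submonoid.closure_induction with
  | mem x hx =>
    by_cases h : q = x
    · exact Or.inr (by rw [h])
    · exact Or.inl (hco hq hx h)
  | one => exact Or.inl (Nat.coprime_one_right q)
  | mul x y _ _ hx hy =>
    rcases hx with hx | hx
    · rcases hy with hy | hy
      · exact Or.inl (Nat.Coprime.mul_right hx hy)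
      · exact Or.inr (hy.mul_left x)
    · exact Or.inr (hx.mul_right y)

theorem card_dvd_le (P : Set ℕ) (hP : ∀ p ∈ P, 2 ≤ p) (hcoP : P.Pairwise Nat.Coprime)
    (T Q : Finset ℕ) (hT : ∀ s ∈ T, s ∈ Submonoid.closure P)
    (hco : (T : Set ℕ).Pairwise Nat.Coprime) (hQ : ∀ q ∈ Q, q ∈ P) :
    (T.filter fun s => ∃ q ∈ Q, ¬ Nat.Coprime q s).card ≤ Q.card := by
  classical
  have hex : ∀ s ∈ T.filter (fun s => ∃ q ∈ Q, ¬ Nat.Coprime q s),
      ∃ q ∈ Q, ¬ Nat.Coprime q s := fun s hs => (Finset.mem_filter.1 hs).2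
  choose! f hf hf2 using hex
  refine Finset.card_le_card_of_injOn f (fun s hs => hf s hs) ?_
  intro s hs t ht hst
  by_contra hne
  have hs' := (Finset.mem_filter.1 (Finset.mem_coe.1 hs)).1
  have ht' := (Finset.mem_filter.1 (Finset.mem_coe.1 ht)).1
  have h1 : Nat.Coprime s t := hco (Finset.mem_coe.2 hs') (Finset.mem_coe.2 ht') hne
  have hp : f s ∈ P := hQ _ (hf s (Finset.mem_coe.1 hs))
  have h2 : f s ∣ s :=
    (coprime_or_dvd P hcoP s (hT s hs') (f s) hp).resolve_left (hf2 s (Finset.mem_coe.1 hs))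
  have h3 : f s ∣ t := by
    refine (coprime_or_dvd P hcoP t (hT t ht') (f s) hp).resolve_left ?_
    have := hf2 t (Finset.mem_coe.1 ht)
    rwa [← hst] at this
  have h4 : f s ∣ 1 := by
    rw [← Nat.Coprime.gcd_eq_one h1]
    exact Nat.dvd_gcd h2 h3
  have h5 := hP _ hp
  have h6 := Nat.dvd_one.1 h4
  omega

theorem frequently_window_q (P : Set ℕ) (hP : ∀ p ∈ P, 2 ≤ p) (hco : P.Pairwise Nat.Coprime)
    (h2 : ∀ C : ℝ, ∃ᶠ y : ℕ in atTop, C * Real.log y ^ 4 ≤ ((P ∩ Set.Iic y).ncard : ℝ)) (C : ℕ)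
    (k : ℤ) (hk : k ≠ 0) :
    ∃ᶠ w : ℕ in atTop, ∀ Q : Finset ℕ, (∀ q ∈ Q, q ∈ P) → Q.card ≤ w →
      ∃ T : Finset ℕ, (∀ s ∈ T, s ∈ Submonoid.closure (P ∩ Set.Iic (2 ^ (3 * w))) ∧ 2 ^ w < s ∧
      s ≤ 2 ^ (3 * w) ∧ IsCoprime (s : ℤ) k ∧ ∀ q ∈ Q, Nat.Coprime q s) ∧
      (T : Set ℕ).Pairwise Nat.Coprime ∧ T.card = C * w ^ 4 := by
  classical
  refine (frequently_window P hP hco h2 (C + 1) k hk).mono ?_
  rintro w ⟨T₀, hT₀, hTco, hTc⟩ Q hQ hQc
  have h1 : (T₀.filter fun s => ∃ q ∈ Q, ¬ Nat.Coprime q s).card ≤ w ^ 4 :=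
    (card_dvd_le P hP hco T₀ Q (fun s hs => (hT₀ s hs).1) hTco hQ).trans
      (hQc.trans (Nat.le_self_pow (by norm_num) w))
  have h3 : (T₀.filter fun s => ∃ q ∈ Q, ¬ Nat.Coprime q s).card +
      (T₀.filter fun s => ¬ ∃ q ∈ Q, ¬ Nat.Coprime q s).card = T₀.card :=
    Finset.card_filter_add_card_filter_not _
  have h4 : C * w ^ 4 ≤ (T₀.filter fun s => ¬ ∃ q ∈ Q, ¬ Nat.Coprime q s).card := by
    have h5 : (C + 1) * w ^ 4 = C * w ^ 4 + w ^ 4 := by ring
    omega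
  obtain ⟨T, hT, hTcard⟩ := Finset.exists_subset_card_eq h4
  refine ⟨T, fun s hs => ?_, ?_, hTcard⟩
  · obtain ⟨h5, h6⟩ := Finset.mem_filter.1 (hT hs)
    obtain ⟨h7, h8, h9, h10⟩ := hT₀ s h5
    refine ⟨closure_iic P hP s _ h7 h9, h8, h9, h10, fun q hq => ?_⟩
    by_contra h
    exact h6 ⟨q, hq, h⟩
  · exact hTco.mono fun s hs =>
      Finset.mem_coe.2 (Finset.mem_filter.1 (hT (Finset.mem_coe.1 hs))).1

end Furst96.Spw
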