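import Pool.Agent.H.MP_96e181_an.spw.NearBound
import Pool.Agent.H.MP_96e181_an.spw.PhiBound
import Pool.Agent.H.MP_96e181_an.spz.Core2
import Pool.Agent.H.MP_96e181_an.spw.RemoveQ
import Pool.Agent.H.MP_96e181_an.spx.LowMass
import Pool.Agent.H.MP_96e181_an.spx.MassFull
import Pool.Agent.H.MP_96e181_an.spx.Numeric
import Pool.Agent.H.MP_96e181_an.sps.FourierUnique
import Pool.Agent.H.MP_96e181_an.sps.Growth

/-! # Module FinalQ: the quantitative estimate of a Fourier coefficient -/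

set_option autoImplicit false

open MeasureTheory Filter Topology

namespace Furst96.Spw

open Furst96.Sps Furst96.Spx Furst96.Spz

theorem growth6 (C : ℝ) (hC : 0 ≤ C) (B : ℕ) (hB : 1 ≤ B) (ε : ℝ) (hε : 0 < ε) :
    ∀ᶠ w : ℕ in atTop, C * (2 : ℝ) ^ (w ^ 2 / 2) / (2 : ℝ) ^ (w * (B * w)) ≤ ε := by
  have h1 : Tendsto (fun w : ℕ => (2 : ℝ) ^ w) atTop atTop :=
    tendsto_pow_atTop_atTop_of_one_lt (by norm_num)
  filter_upwards [h1.eventually (eventually_ge_atTop (C / ε)), eventually_ge_atTop 2] with w h2 hw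
  rw [div_le_iff₀ (by positivity)]
  have h3 : C ≤ ε * 2 ^ w := by
    rw [div_le_iff₀ hε] at h2
    linarith
  calc C * (2 : ℝ) ^ (w ^ 2 / 2) ≤ ε * 2 ^ w * (2 : ℝ) ^ (w ^ 2 / 2) :=
        mul_le_mul_of_nonneg_right h3 (by positivity)
    _ = ε * (2 : ℝ) ^ (w + w ^ 2 / 2) := by rw [pow_add]; ring
    _ ≤ ε * (2 : ℝ) ^ (w * (B * w)) := by
        refine mul_le_mul_of_nonneg_left (pow_le_pow_right₀ (by norm_num) ?_) hε.le
        have h4 : w * (1 * w) ≤ w * (B * w) :=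
          Nat.mul_le_mul le_rfl (Nat.mul_le_mul hB le_rfl)
        have h5 : w * 2 ≤ w * w := Nat.mul_le_mul le_rfl hw
        have h6 : w ^ 2 = w * w := sq w
        rw [one_mul] at h4
        omega

theorem norm_coef_le_one (μ : Measure UnitAddCircle) [IsProbabilityMeasure μ] (k : ℤ) :
    ‖coef μ k‖ ≤ 1 := by
  unfold coef
  refine (norm_integral_le_integral_norm _).trans ?_
  have h1 : ∀ x : UnitAddCircle, ‖(fourier k x : ℂ)‖ = 1 := fun x => by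
    rw [fourier_apply]
    exact Circle.norm_coe _
  simp only [h1]
  simp

theorem coef_quant (P : Set ℕ) (hP : ∀ p ∈ P, 2 ≤ p) (hco : P.Pairwise Nat.Coprime)
    (h1 : ∀ᶠ y : ℕ in atTop, 1000 * Real.log (Real.log (Real.log y)) ≤
      ((P ∩ Set.Iic y).ncard : ℝ))
    (h2 : ∀ C : ℝ, ∃ᶠ y : ℕ in atTop, C * Real.log y ^ 4 ≤ ((P ∩ Set.Iic y).ncard : ℝ))
    (k : ℤ) (hk : k ≠ 0) (ε : ℝ) (hε0 : 0 < ε) (hε1 : ε ≤ 1) :
    ∃ C₀ : ℕ, 1 ≤ C₀ ∧ ∀ C' : ℕ, C₀ ≤ C' → ∀ (y : ℕ) (μ : Measure UnitAddCircle),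
      IsProbabilityMeasure μ → (∀ p ∈ P, p ≤ y → Inv μ p) →
      ‖coef μ k‖ ≤ (9 * ε + 2 * Real.sqrt (2 * ε)) + C' *
        μ.real (Near C' (Real.exp (-Real.exp (Real.exp
          (((P ∩ Set.Iic y).ncard : ℝ) / C'))))) := by
  classical
  obtain ⟨m₀, hm₀, hphi⟩ := phi_bound P hP hco h1 ε hε0
  set δ₀ : ℝ := 1 / (2 : ℝ) ^ m₀ with hδ₀
  have hδ₀0 : 0 < δ₀ := by positivity
  have hδ₀1 : δ₀ ≤ 1 / 2 := by
    rw [hδ₀]
    refine one_div_le_one_div_of_le (by norm_num) ?_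
    calc (2 : ℝ) = 2 ^ 1 := (pow_one _).symm
      _ ≤ 2 ^ m₀ := pow_le_pow_right₀ (by norm_num) hm₀
  set κ : ℝ := 2 * δ₀ ^ 2 with hκ
  have hκ0 : 0 < κ := by positivity
  have hκ1 : κ ≤ 1 := by nlinarith
  obtain ⟨A, B, hA, hB, hsel⟩ := select_numeric ε κ hε0 hε1 hκ0 hκ1
  obtain ⟨j1, hj1⟩ := near_bound P hP hco h1 (ε / 4) (by positivity)
  -- choose w
  have hev : ∀ᶠ w : ℕ in atTop, 1 ≤ w ∧ 2 ^ j1 ≤ w ∧
      Real.exp (-((A * w ^ 4 : ℕ) / 8 : ℝ)) ≤ ε ∧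
      (192 * (A * w ^ 4 : ℕ) : ℝ) / (2 : ℝ) ^ (3 * w) ≤ ε ∧
      2 / ε < (2 : ℝ) ^ (A * w ^ 4) ∧
      (2 * Real.pi * |(k : ℝ)|) * (2 : ℝ) ^ (w ^ 2 / 2) / (2 : ℝ) ^ (w * (B * w)) ≤ ε := by
    filter_upwards [eventually_ge_atTop 1,
      eventually_ge_atTop (2 ^ j1), growth1 A hA ε hε0, growth2 (4 * A) ε hε0,
      growth3 A hA (2 / ε), growth6 (2 * Real.pi * |(k : ℝ)|) (by positivity) B hB ε hε0]
      with w g1 g3 g4 g5 g6 g8
    refine ⟨g1, g3, g4, ?_, g6, g8⟩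
    refine le_trans (le_of_eq ?_) g5
    push_cast
    ring
  obtain ⟨w, hTw, ⟨hw1, hwj1, g1, g2, g3, g5⟩, Q, hQP, hQw, J, hJ1, hJ2, σ, hσQ, hσM, hσ⟩ :=
    ((frequently_window_q P hP hco h2 (192 * A) k hk).and_eventually (hev.and hphi)).exists
  obtain ⟨T, hT, hTco, hTc⟩ := hTw Q (fun q hq => (hQP q hq).1) hQw
  have hTc' : T.card = 192 * (A * w ^ 4) := by rw [hTc]; ring
  set G : ℕ := A * w ^ 4 with hGdef
  have hTone : ∀ s ∈ T, 1 < s := fun s hs => lt_of_le_of_lt Nat.one_le_two_pow (hT s hs).2.1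
  have hTpos : ∀ s ∈ T, 0 < s := fun s hs => zero_lt_one.trans (hTone s hs)
  have hG1 : 1 ≤ G := by
    rw [hGdef]
    exact Nat.mul_pos hA (by positivity)
  -- the scale j for low_mass
  obtain ⟨j, hja, hjb⟩ := exists_pow_two (6 * w * G) (by
    have : 0 < w * G := Nat.mul_pos hw1 hG1
    nlinarith)
  have hjj1 : j1 ≤ j := by
    have h3 : 2 ^ j1 ≤ 2 ^ j := by
      refine le_trans ?_ hja
      calc 2 ^ j1 ≤ w := hwj1
        _ = w * 1 := (mul_one w).symm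
        _ ≤ 6 * w * G := Nat.mul_le_mul (by omega) hG1
    exact (Nat.pow_le_pow_iff_right (by norm_num)).1 h3
  obtain ⟨C₁, hC₁, hnear⟩ := hj1 j hjj1
  refine ⟨max C₁ (max (2 ^ (3 * w)) (max ⌈4 / ε⌉₊ (10 ^ 7))), hC₁.trans (le_max_left _ _), ?_⟩
  intro C' hC' y μ hμ hinv
  have hC'1 : C₁ ≤ C' := (le_max_left _ _).trans hC'
  have hC'2 : 2 ^ (3 * w) ≤ C' := ((le_max_left _ _).trans (le_max_right _ _)).trans hC'
  have hC'3 : ⌈4 / ε⌉₊ ≤ C' :=
    (((le_max_left _ _).trans (le_max_right _ _)).trans (le_max_right _ _)).trans hC'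
  have hC'4 : 10 ^ 7 ≤ C' :=
    (((le_max_right _ _).trans (le_max_right _ _)).trans (le_max_right _ _)).trans hC'
  have hC'5 : 4 / ε ≤ (C' : ℝ) := (Nat.le_ceil _).trans (by exact_mod_cast hC'3)
  have hε9 : 0 ≤ 9 * ε + 2 * Real.sqrt (2 * ε) := by positivity
  have hone := norm_coef_le_one μ k
  set ρ : ℝ := Real.exp (-Real.exp (Real.exp (((P ∩ Set.Iic y).ncard : ℝ) / C'))) with hρ
  rcases Nat.lt_or_ge y (2 ^ (3 * w)) with hy | hy
  · -- small y: the last term is at least one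
    have h3 : Near C' ρ = Set.univ := by
      refine near_trivial C' hC'4 _ ?_
      have h4 : (P ∩ Set.Iic y).ncard ≤ (Set.Iic y).ncard :=
        Set.ncard_le_ncard Set.inter_subset_right (Set.finite_Iic y)
      have h5 : (Set.Iic y).ncard = y + 1 := by
        rw [← Nat.card_coe_set_eq, Nat.card_eq_fintype_card]
        simp
      have h6 : (P ∩ Set.Iic y).ncard ≤ C' := by omega
      exact_mod_cast h6
    rw [h3, probReal_univ, mul_one]
    have h4 : (1 : ℝ) ≤ C' := by exact_mod_cast (by omega : 1 ≤ C')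
    linarith
  have hinvP : ∀ s ∈ Submonoid.closure (P ∩ Set.Iic (2 ^ (3 * w))), Inv μ s := fun s hs =>
    inv_closure (fun p hp => hinv p hp.1 (le_trans hp.2 hy)) hs
  rcases le_or_gt (ε / 4) (μ.real (Near C' ρ)) with hm | hm
  · have h4 : 1 ≤ C' * μ.real (Near C' ρ) := by
      calc (1 : ℝ) = 4 / ε * (ε / 4) := by field_simp
        _ ≤ C' * μ.real (Near C' ρ) := mul_le_mul hC'5 hm (by positivity) (by positivity)
    linarith
  have hlast : 0 ≤ C' * μ.real (Near C' ρ) := by positivity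
  refine le_trans ?_ (le_add_of_nonneg_right hlast)
  have hTinv : ∀ s ∈ T, Inv μ s := fun s hs => hinvP s (hT s hs).1
  have hX : μ.real (Near (2 ^ 2 ^ j) (1 / (2 : ℝ) ^ (16 * 2 ^ j))) < ε / 2 := by
    have h3 := hnear C' hC'1 y μ hμ hinv
    rw [← hρ] at h3
    linarith
  have hlow := low_mass μ w G j ε hε0 T hTinv hTco (fun s hs => ⟨(hT s hs).2.1, (hT s hs).2.2.1⟩)
    hTc' hja (by
      calc 2 ^ j ≤ 2 * (6 * w * G) := hjb
        _ = 12 * w * G := by ring) hX g3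
  -- select
  set N : ℕ := ∏ s ∈ T, s with hN
  have hN0 : 0 < N := Finset.prod_pos fun s hs => hTpos s hs
  have hmass : ∀ i : Fin N, mass (cm μ N) (fun s i => res s i) T i = cm μ N i := fun i =>
    mass_full T hTco (cm μ N) i
  obtain ⟨D, hD, R, hR, hRc, hs1, hs2⟩ := hsel w hw1 g1 g2 (cm μ N) (cm_nonneg μ N)
    (sum_cm μ hN0) (fun s i => res s i) T hTc'
    (by
      intro s hs i
      exact lt_of_lt_of_le (Nat.mod_lt _ (hTpos s hs)) (hT s hs).2.2.1)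
    (by
      refine le_trans (le_of_eq ?_) hlow
      refine Finset.sum_congr rfl fun i _ => ?_
      rw [hmass i]
      have h4 : Real.exp (-((G : ℝ) * Real.log 2)) = 1 / (2 : ℝ) ^ G := by
        rw [Real.exp_neg, mul_comm, Real.exp_mul, Real.exp_log (by norm_num), Real.rpow_natCast,
          one_div]
      rw [h4])
  have hQcl : ∀ s ∈ Submonoid.closure (Q : Set ℕ), Inv μ s := by
    intro s hs
    refine inv_closure (fun q hq => ?_) hs
    have h3 := hQP q (Finset.mem_coe.1 hq)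
    refine hinv q h3.1 (h3.2.trans (le_trans ?_ hy))
    exact Nat.pow_le_pow_right (by norm_num) (by omega)
  have hcore := core2 μ T hTco hTpos hTinv k (fun s hs => (hT s hs).2.2.2.1)
    D R hD hR σ (fun a => hQcl _ (hσQ a)) ((2 : ℝ) ^ (w ^ 2 / 2))
    (by
      intro a
      exact_mod_cast hσM a)
    δ₀ ε hδ₀0.le hε0.le
    (by
      intro θ hθ0 hθ
      obtain ⟨s, hs, hsθ⟩ := hθ
      exact hσ θ hθ0 ⟨s, hTpos s hs, (hT s hs).2.2.1, hsθ, (hT s hs).2.2.2.2⟩)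
  rw [← hN] at hcore
  -- the product Q is large
  have hQ : (2 : ℝ) ^ (w * (B * w)) ≤ ((∏ s ∈ D ∪ R, s : ℕ) : ℝ) := by
    have hRT : R ⊆ T := hR.trans Finset.sdiff_subset
    have h3 : (2 ^ w) ^ R.card ≤ ∏ s ∈ R, s :=
      Finset.pow_card_le_prod R (fun s => s) (2 ^ w) fun s hs => (hT s (hRT hs)).2.1.le
    have h4 : ∏ s ∈ R, s ≤ ∏ s ∈ D ∪ R, s := by
      refine Finset.prod_le_prod_of_subset_of_one_le' Finset.subset_union_right fun s hs _ => ?_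
      exact (hTone s ((Finset.union_subset hD hRT) hs)).le
    have h5 : 2 ^ (w * (B * w)) ≤ ∏ s ∈ D ∪ R, s := by
      rw [pow_mul, ← hRc]
      exact h3.trans h4
    exact_mod_cast h5
  have hfirst : 2 * Real.pi * |(k : ℝ)| * (2 : ℝ) ^ (w ^ 2 / 2) /
      ((∏ s ∈ D ∪ R, s : ℕ) : ℝ) ≤ ε := by
    refine le_trans ?_ g5
    exact div_le_div_of_nonneg_left (by positivity) (by positivity) hQ
  have hsqrt : Real.sqrt (tc (cm μ N) (fun s i => res s i) D R) ≤ Real.sqrt (2 * ε) :=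
    Real.sqrt_le_sqrt hs2
  rw [← hκ] at hcore
  linarith

end Furst96.Spw
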