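import Pool.Agent.H.MP_96e181_an.spw.Back
import Pool.Agent.H.MP_96e181_an.spz.LongRun

/-! # Module LongRun: long runs in one direction

As `spz/LongRun.lean` (copy it; `boundary` stays there), with these changes.  For `v ∈ S`,
`0 ≤ n ≤ N`, `v' = v - n e_i`, `τ = bt (n e_i)`: by `order_run`
`ord(bt 0) ≤ ord τ ≤ ord(bt 0) θ ≤ B θ = D`, and `‖g_{v'} x - τ‖ = |δ| / p_i^n` (`|δ| ≤ ρ < 1/2`), so
`z = ‖g_{v'} x - τ‖ ord τ ≤ ρ θ = r` and `ρ' < ord(bt 0) |δ| ≤ z p_i^n ≤ ord(bt 0) |δ| θ ≤ ρ θ`.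
For fixed `v'` the point `τ` is unique (`near_unique`, `hu`), so `z` is a function of `v'` and the
`n` which occur for a given `v'` differ by less than `t` (`p_i^{n₂-n₁} < ρ θ / ρ' ≤ p_i^t`). -/

set_option autoImplicit false

open MeasureTheory

namespace Furst96.Spw

open Furst96.Sps Furst96.Spz

variable {ι : Type*} [Fintype ι] [DecidableEq ι]

private theorem longRun_gg_single (p : ι → ℕ) (i : ι) (n : ℕ) :
    gg p (Pi.single i n) = p i ^ n := by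
  unfold gg
  rw [Finset.prod_eq_single i]
  · rw [Pi.single_eq_same]
  · intro j _ hj
    rw [Pi.single_eq_of_ne hj, pow_zero]
  · intro h
    exact absurd (Finset.mem_univ i) h

private theorem longRun_data (p : ι → ℕ) (hp : ∀ i, 2 ≤ p i)
    (hco : Pairwise fun i j => Nat.Coprime (p i) (p j)) (x : UnitAddCircle) (B N : ℕ) (i : ι)
    (ρ ρ' θ : ℝ) (hρ : ρ < 1 / 2) (hθ : 1 ≤ θ)
    (v : ι → ℕ) (δ : ℝ) (h0 : 0 < addOrderOf (bt p x v δ 0))
    (hB : addOrderOf (bt p x v δ 0) ≤ B)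
    (h1 : (addOrderOf (bt p x v δ 0) : ℝ) * |δ| ≤ ρ)
    (h2 : ρ' < (addOrderOf (bt p x v δ 0) : ℝ) * |δ|)
    (hqo : (qo p x v δ i 0 : ℝ) ≤ θ) (hcb : N ≤ cb p x v δ θ i) (n : ℕ) (hn : n ≤ N) :
    n ≤ v i ∧
    0 < addOrderOf (bt p x v δ (Pi.single i n)) ∧
    (addOrderOf (bt p x v δ (Pi.single i n)) : ℝ) ≤ B * θ ∧
    ‖gg p (v - Pi.single i n) • x - bt p x v δ (Pi.single i n)‖ *
      (addOrderOf (bt p x v δ (Pi.single i n)) : ℝ) * (p i : ℝ) ^ n ≤ ρ * θ ∧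
    ρ' < ‖gg p (v - Pi.single i n) • x - bt p x v δ (Pi.single i n)‖ *
      (addOrderOf (bt p x v δ (Pi.single i n)) : ℝ) * (p i : ℝ) ^ n := by
  have hcv := cb_le p x v δ θ i
  have hnv : n ≤ v i := by omega
  have hle : (Pi.single i n : ι → ℕ) ≤ v := by
    intro j
    by_cases hj : j = i
    · subst hj
      rw [Pi.single_eq_same]
      exact hnv
    · rw [Pi.single_eq_of_ne hj]
      exact Nat.zero_le _
  have hpos := order_pos p hp x v δ h0 _ hle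
  obtain ⟨ho1, ho2⟩ := order_run p hp hco x v δ θ h0 i hqo n (by omega)
  have hθ0 : (0 : ℝ) ≤ θ := by linarith
  have ho1' : (addOrderOf (bt p x v δ 0) : ℝ) ≤
      (addOrderOf (bt p x v δ (Pi.single i n)) : ℝ) := by exact_mod_cast ho1
  have hBr : (addOrderOf (bt p x v δ 0) : ℝ) ≤ (B : ℝ) := by exact_mod_cast hB
  have hpr : (1 : ℝ) ≤ (p i : ℝ) ^ n := by
    apply one_le_pow₀
    have := hp i
    exact_mod_cast (by omega : 1 ≤ p i)
  have hdr : (1 : ℝ) ≤ (addOrderOf (bt p x v δ 0) : ℝ) := by exact_mod_cast h0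
  have habs : |δ / (p i : ℝ) ^ n| = |δ| / (p i : ℝ) ^ n := by
    rw [abs_div, abs_of_nonneg (by linarith : (0 : ℝ) ≤ (p i : ℝ) ^ n)]
  have hnorm : ‖gg p (v - Pi.single i n) • x - bt p x v δ (Pi.single i n)‖ =
      |δ| / (p i : ℝ) ^ n := by
    unfold bt
    rw [sub_sub_cancel, longRun_gg_single, Nat.cast_pow, ← habs]
    rw [AddCircle.norm_coe_eq_abs_iff (1 : ℝ) one_ne_zero, habs, abs_one]
    have h6 : |δ| / (p i : ℝ) ^ n ≤ |δ| := div_le_self (abs_nonneg _) hpr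
    have h7 : |δ| ≤ (addOrderOf (bt p x v δ 0) : ℝ) * |δ| := by
      nlinarith [abs_nonneg δ]
    linarith
  have hne : (p i : ℝ) ^ n ≠ 0 := by linarith
  have hval : ‖gg p (v - Pi.single i n) • x - bt p x v δ (Pi.single i n)‖ *
      (addOrderOf (bt p x v δ (Pi.single i n)) : ℝ) * (p i : ℝ) ^ n =
      (addOrderOf (bt p x v δ (Pi.single i n)) : ℝ) * |δ| := by
    rw [hnorm]
    field_simp
  refine ⟨hnv, hpos, ho2.trans (mul_le_mul_of_nonneg_right hBr hθ0), ?_, ?_⟩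
  · rw [hval]
    have h8 := mul_le_mul_of_nonneg_right ho2 (abs_nonneg δ)
    have h9 := mul_le_mul_of_nonneg_right h1 hθ0
    nlinarith
  · rw [hval]
    exact lt_of_lt_of_le h2 (mul_le_mul_of_nonneg_right ho1' (abs_nonneg δ))

private theorem longRun_abs (y τ₁ τ₂ : UnitAddCircle) (n m t : ℕ)
    (P R ρ' D : ℝ) (hP : 1 < P) (h1 : 0 < addOrderOf τ₁) (h2 : 0 < addOrderOf τ₂)
    (hD1 : (addOrderOf τ₁ : ℝ) ≤ D) (hD2 : (addOrderOf τ₂ : ℝ) ≤ D)
    (he1 : ‖y - τ₁‖ * (addOrderOf τ₁ : ℝ) * P ^ n ≤ R)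
    (he1' : ρ' < ‖y - τ₁‖ * (addOrderOf τ₁ : ℝ) * P ^ n)
    (he2 : ‖y - τ₂‖ * (addOrderOf τ₂ : ℝ) * P ^ m ≤ R) (hρ' : 0 < ρ')
    (ht : Real.log (R / ρ') ≤ t * Real.log P) (hu : 2 * R * D < 1) (hnm : n ≤ m) :
    m < n + t := by
  have hpn : ∀ k : ℕ, (1 : ℝ) ≤ P ^ k := fun k => one_le_pow₀ hP.le
  have hr1 : ‖y - τ₁‖ * (addOrderOf τ₁ : ℝ) ≤ R := by
    have h3 := le_mul_of_one_le_right
      (by positivity : 0 ≤ ‖y - τ₁‖ * (addOrderOf τ₁ : ℝ)) (hpn n)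
    linarith
  have hr2 : ‖y - τ₂‖ * (addOrderOf τ₂ : ℝ) ≤ R := by
    have h3 := le_mul_of_one_le_right
      (by positivity : 0 ≤ ‖y - τ₂‖ * (addOrderOf τ₂ : ℝ)) (hpn m)
    linarith
  have htau : τ₁ = τ₂ := near_unique y τ₁ τ₂ D R h1 h2 hD1 hD2 hr1 hr2 hu
  have hz : P ^ (m - n) * (‖y - τ₁‖ * (addOrderOf τ₁ : ℝ) * P ^ n) =
      ‖y - τ₂‖ * (addOrderOf τ₂ : ℝ) * P ^ m := by
    rw [htau]
    have h5 : P ^ m = P ^ (m - n) * P ^ n := by
      rw [← pow_add]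
      congr 1
      omega
    rw [h5]
    ring
  by_contra hlt
  push_neg at hlt
  have h6 : P ^ t ≤ P ^ (m - n) := pow_le_pow_right₀ hP.le (by omega)
  have h7 : P ^ (m - n) * ρ' < R := by
    have h8 := mul_lt_mul_of_pos_left he1' (by linarith [hpn (m - n)] : 0 < P ^ (m - n))
    linarith
  have h9 : P ^ t < R / ρ' := by
    rw [lt_div_iff₀ hρ']
    have := mul_le_mul_of_nonneg_right h6 hρ'.le
    linarith
  have h10 : Real.log (P ^ t) < Real.log (R / ρ') :=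
    Real.log_lt_log (by linarith [hpn t]) h9
  rw [Real.log_pow] at h10
  linarith

theorem long_run (p : ι → ℕ) (hp : ∀ i, 2 ≤ p i)
    (hco : Pairwise fun i j => Nat.Coprime (p i) (p j))
    (x : UnitAddCircle) (V B t N : ℕ) (i : ι) (ρ ρ' θ : ℝ) (hρ' : 0 < ρ') (hρ : ρ < 1 / 2)
    (hθ : 1 ≤ θ) (ht : Real.log (ρ * θ / ρ') ≤ t * Real.log (p i))
    (S : Finset (ι → ℕ)) (hS : S ⊆ box ι V) (δ : (ι → ℕ) → ℝ)
    (hd : ∀ v ∈ S, 0 < addOrderOf (bt p x v (δ v) 0) ∧ addOrderOf (bt p x v (δ v) 0) ≤ B ∧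
      (addOrderOf (bt p x v (δ v) 0) : ℝ) * |δ v| ≤ ρ ∧
      ρ' < (addOrderOf (bt p x v (δ v) 0) : ℝ) * |δ v|)
    (hqo : ∀ v ∈ S, (qo p x v (δ v) i 0 : ℝ) ≤ θ)
    (hcb : ∀ v ∈ S, N ≤ cb p x v (δ v) θ i)
    (hu : 2 * (ρ * θ) * (B * θ) < 1) :
    S.card * (N + 1) ≤ t * V ^ Fintype.card ι := by
  classical
  have hcard : (S ×ˢ Finset.range (N + 1)).card = S.card * (N + 1) := by
    rw [Finset.card_product, Finset.card_range]
  have hp1 : (1 : ℝ) < (p i : ℝ) := by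
    have := hp i
    exact_mod_cast (by omega : 1 < p i)
  have key : ∀ v ∈ S, ∀ n ≤ N, _ := fun v hv n hn =>
    longRun_data p hp hco x B N i ρ ρ' θ hρ hθ v (δ v) (hd v hv).1 (hd v hv).2.1
      (hd v hv).2.2.1 (hd v hv).2.2.2 (hqo v hv) (hcb v hv) n hn
  rw [← hcard, ← card_box (ι := ι) V]
  refine Finset.card_le_mul_card_image_of_maps_to
    (f := fun q : (ι → ℕ) × ℕ => q.1 - Pi.single i q.2) ?_ t ?_
  · rintro ⟨v, n⟩ hq
    rw [Finset.mem_product] at hq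
    rw [mem_box]
    intro j
    have h1 := mem_box.1 (hS hq.1) j
    exact lt_of_le_of_lt (Nat.sub_le _ _) h1
  · intro b _
    set F := (S ×ˢ Finset.range (N + 1)).filter
      (fun q : (ι → ℕ) × ℕ => q.1 - Pi.single i q.2 = b) with hF
    have hmem : ∀ q : (ι → ℕ) × ℕ, q ∈ F → q.1 ∈ S ∧ q.2 ≤ N ∧ q.1 - Pi.single i q.2 = b := by
      intro q hq
      rw [hF, Finset.mem_filter, Finset.mem_product, Finset.mem_range] at hq
      exact ⟨hq.1.1, by have := hq.1.2; omega, hq.2⟩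
    have hinjF : Set.InjOn (fun q : (ι → ℕ) × ℕ => q.2) (F : Set ((ι → ℕ) × ℕ)) := by
      rintro ⟨v, n⟩ hq ⟨w, m⟩ hq' hnm
      obtain ⟨hvS, hn, hb⟩ := hmem _ hq
      obtain ⟨hwS, hm, hb'⟩ := hmem _ hq'
      simp only at hnm hb hb' hn hm hvS hwS
      subst hnm
      have hv := key v hvS n hn
      have hw := key w hwS n hn
      have hvw : v = w := by
        funext j
        have h2 : (v - Pi.single i n : ι → ℕ) j = (w - Pi.single i n : ι → ℕ) j := by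
          rw [hb, hb']
        by_cases hj : j = i
        · subst hj
          simp only [Pi.sub_apply, Pi.single_eq_same] at h2
          have := hv.1
          have := hw.1
          omega
        · simp only [Pi.sub_apply, Pi.single_eq_of_ne hj] at h2
          omega
      rw [hvw]
    rw [← Finset.card_image_of_injOn hinjF]
    rcases F.eq_empty_or_nonempty with he | hne
    · rw [he]
      simp
    · obtain ⟨q0, hq0, hmin⟩ := F.exists_min_image (fun q => q.2) hne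
      have hsub : F.image (fun q : (ι → ℕ) × ℕ => q.2) ⊆ Finset.Ico q0.2 (q0.2 + t) := by
        intro k hk
        rw [Finset.mem_image] at hk
        obtain ⟨q, hq, rfl⟩ := hk
        rw [Finset.mem_Ico]
        refine ⟨hmin q hq, ?_⟩
        obtain ⟨hvS, hn, hb⟩ := hmem _ hq0
        obtain ⟨hwS, hm, hb'⟩ := hmem _ hq
        have hv := (key _ hvS _ hn).2
        have hw := (key _ hwS _ hm).2
        rw [hb] at hv
        rw [hb'] at hw
        exact longRun_abs _ _ _ q0.2 q.2 t (p i : ℝ) (ρ * θ) ρ' (B * θ) hp1 hv.1 hw.1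
          hv.2.1 hw.2.1 hv.2.2.1 hv.2.2.2 hw.2.2.1 hρ' ht hu (hmin q hq)
      calc (F.image (fun q : (ι → ℕ) × ℕ => q.2)).card ≤ (Finset.Ico q0.2 (q0.2 + t)).card :=
            Finset.card_le_card hsub
        _ = t := by rw [Nat.card_Ico]; omega

end Furst96.Spw
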