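import Mathlib

/-! # Module OldHyp: a convergent sum gives the growth condition

`A(y) = #(P ∩ [1, y])` is nondecreasing; it is positive for `y ≥ p` (`p ∈ P`, `hne`).  The terms
`1 / A(2^(2^j))` are nonincreasing for large `j`, and their sum converges, so
`j / A(2^(2^j)) → 0` (`∑_{j/2 < i ≤ j} 1 / A(2^(2^i)) ≥ (j/2) / A(2^(2^j))`, tails of a convergent
series), hence `A(2^(2^j)) ≥ j` for large `j`.  For `2^(2^j) ≤ y < 2^(2^(j+1))`:
`A(y) ≥ j` and `log log log y ≤ log ((j + 1) log 2) ≤ log (j + 1)`, and `1000 log (j + 1) ≤ j` for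
large `j`. -/

set_option autoImplicit false

open Filter Topology

namespace Furst96.Spw

theorem growth_of_summable (P : Set ℕ) (hne : P.Nonempty)
    (h1 : Summable fun j : ℕ => 1 / ((P ∩ Set.Iic (2 ^ 2 ^ j)).ncard : ℝ)) :
    ∀ᶠ y : ℕ in atTop, 1000 * Real.log (Real.log (Real.log y)) ≤
      ((P ∩ Set.Iic y).ncard : ℝ) := by
  obtain ⟨p, hp⟩ := hne
  obtain ⟨A, hA⟩ : ∃ A : ℕ → ℕ, ∀ y, A y = (P ∩ Set.Iic y).ncard := ⟨_, fun _ => rfl⟩
  simp only [← hA] at h1 ⊢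
  have hfin : ∀ y, (P ∩ Set.Iic y).Finite := fun y =>
    (Set.finite_Iic y).subset Set.inter_subset_right
  have hmono : Monotone A := fun y y' h => by
    rw [hA, hA]
    exact Set.ncard_le_ncard (Set.inter_subset_inter_right P (Set.Iic_subset_Iic.2 h)) (hfin y')
  have hpos : ∀ y, p ≤ y → 0 < A y := fun y h => by
    rw [hA]
    exact (Set.ncard_pos (hfin y)).2 ⟨p, hp, h⟩
  have hself : ∀ i : ℕ, i ≤ 2 ^ 2 ^ i := fun i =>
    (Nat.lt_two_pow_self (n := i)).le.trans (Nat.lt_two_pow_self (n := 2 ^ i)).le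
  have hpm : ∀ i j : ℕ, i ≤ j → 2 ^ 2 ^ i ≤ 2 ^ 2 ^ j := fun i j h =>
    Nat.pow_le_pow_right (by norm_num) (Nat.pow_le_pow_right (by norm_num) h)
  -- tails of the series
  have hT := h1.hasSum.tendsto_sum_nat
  have h2n : Tendsto (fun n : ℕ => 2 * n) atTop atTop :=
    tendsto_atTop_mono (fun n => by show n ≤ 2 * n; omega) tendsto_id
  have hd := (hT.comp h2n).sub hT
  rw [sub_self] at hd
  obtain ⟨n₀, hn₀⟩ := (hd.eventually_lt_const (show (0 : ℝ) < 1 / 4 by norm_num)).exists_forall_of_atTop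
  have hmain : ∀ n, n₀ ≤ n → p ≤ n → 1 ≤ n → 4 * n ≤ A (2 ^ 2 ^ (2 * n - 1)) := by
    intro n hn hpn hn1
    have h3 := hn₀ n hn
    simp only [Function.comp_apply] at h3
    rw [← Finset.sum_Ico_eq_sub _ (by omega : n ≤ 2 * n)] at h3
    have hAp : 0 < A (2 ^ 2 ^ (2 * n - 1)) := hpos _ (hpn.trans ((by omega :
      n ≤ 2 * n - 1).trans (hself _)))
    have h4 : (Finset.Ico n (2 * n)).card • (1 / (A (2 ^ 2 ^ (2 * n - 1)) : ℝ)) ≤
        ∑ i ∈ Finset.Ico n (2 * n), 1 / (A (2 ^ 2 ^ i) : ℝ) := by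
      refine Finset.card_nsmul_le_sum _ _ _ fun i hi => ?_
      obtain ⟨hi1, hi2⟩ := Finset.mem_Ico.1 hi
      have h5 : 0 < A (2 ^ 2 ^ i) := hpos _ (hpn.trans (hi1.trans (hself i)))
      refine one_div_le_one_div_of_le (by exact_mod_cast h5) ?_
      exact_mod_cast hmono (hpm i (2 * n - 1) (by omega))
    rw [Nat.card_Ico, nsmul_eq_mul] at h4
    have h5 : ((2 * n - n : ℕ) : ℝ) = n := by
      congr 1
      omega
    rw [h5, mul_one_div] at h4
    have h6 : (n : ℝ) / A (2 ^ 2 ^ (2 * n - 1)) < 1 / 4 := lt_of_le_of_lt h4 h3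
    have h7 : (0 : ℝ) < A (2 ^ 2 ^ (2 * n - 1)) := by exact_mod_cast hAp
    rw [div_lt_iff₀ h7] at h6
    have h8 : (4 : ℝ) * n ≤ A (2 ^ 2 ^ (2 * n - 1)) := by linarith
    exact_mod_cast h8
  -- logarithms
  have hlog : ∀ᶠ j : ℕ in atTop, 1000 * Real.log ((j : ℝ) + 1) ≤ j := by
    have h3 : Tendsto (fun j : ℕ => (j : ℝ) + 1) atTop atTop :=
      tendsto_atTop_add_const_right _ _ tendsto_natCast_atTop_atTop
    have h4 := h3.eventually (Real.isLittleO_log_id_atTop.bound (show (0 : ℝ) < 1 / 2000 by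
      norm_num))
    filter_upwards [h4, eventually_ge_atTop 1] with j hj hj1
    have h5 : (1 : ℝ) ≤ j := by exact_mod_cast hj1
    rw [Real.norm_eq_abs, id, Real.norm_eq_abs, abs_of_pos (by linarith : (0 : ℝ) < j + 1)] at hj
    have h6 := (abs_le.1 hj).2
    linarith
  obtain ⟨j₀, hj₀⟩ := hlog.exists_forall_of_atTop
  have hll : ∀ᶠ y : ℕ in atTop, 0 < Real.log y ∧ 0 < Real.log (Real.log y) := by
    have h3 : Tendsto (fun y : ℕ => Real.log (y : ℝ)) atTop atTop :=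
      Real.tendsto_log_atTop.comp tendsto_natCast_atTop_atTop
    have h4 : Tendsto (fun y : ℕ => Real.log (Real.log (y : ℝ))) atTop atTop :=
      Real.tendsto_log_atTop.comp h3
    filter_upwards [h3.eventually_gt_atTop 0, h4.eventually_gt_atTop 0] with y a b
    exact ⟨a, b⟩
  filter_upwards [hll, eventually_ge_atTop (2 ^ 2 ^ (j₀ + 2 * n₀ + 2 * p + 2))] with y hy hyb
  have hy0 : y ≠ 0 := by
    have : 0 < 2 ^ 2 ^ (j₀ + 2 * n₀ + 2 * p + 2) := by positivity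
    omega
  obtain ⟨k, hk⟩ : ∃ k, k = Nat.log 2 y := ⟨_, rfl⟩
  obtain ⟨j, hj⟩ : ∃ j, j = Nat.log 2 k := ⟨_, rfl⟩
  have hk1 : 2 ^ (j₀ + 2 * n₀ + 2 * p + 2) ≤ k := by
    rw [hk]
    exact Nat.le_log_of_pow_le (by norm_num) hyb
  have hk0 : k ≠ 0 := by
    have : 0 < 2 ^ (j₀ + 2 * n₀ + 2 * p + 2) := by positivity
    omega
  have hj1 : j₀ + 2 * n₀ + 2 * p + 2 ≤ j := by
    rw [hj]
    exact Nat.le_log_of_pow_le (by norm_num) hk1
  have hkj : 2 ^ j ≤ k := by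
    rw [hj]
    exact Nat.pow_log_le_self 2 hk0
  have hyk : 2 ^ k ≤ y := by
    rw [hk]
    exact Nat.pow_log_le_self 2 hy0
  have hkj' : k < 2 ^ (j + 1) := by
    rw [hj]
    exact Nat.lt_pow_succ_log_self (by norm_num) k
  have hyk' : y < 2 ^ (k + 1) := by
    rw [hk]
    exact Nat.lt_pow_succ_log_self (by norm_num) y
  have hy2 : y < 2 ^ 2 ^ (j + 1) :=
    hyk'.trans_le (Nat.pow_le_pow_right (by norm_num) (by omega))
  -- the lower bound
  have hAy : j ≤ A y := by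
    have h3 := hmain ((j + 1) / 2) (by omega) (by omega) (by omega)
    have h4 : A (2 ^ 2 ^ (2 * ((j + 1) / 2) - 1)) ≤ A y :=
      hmono ((hpm _ j (by omega)).trans ((Nat.pow_le_pow_right (by norm_num) hkj).trans hyk))
    omega
  have e1 : Real.log y ≤ 2 ^ (j + 1) := by
    have h3 : (y : ℝ) ≤ 2 ^ 2 ^ (j + 1) := by exact_mod_cast hy2.le
    have h4 : (0 : ℝ) < y := by exact_mod_cast Nat.pos_of_ne_zero hy0
    have h5 := Real.log_le_log h4 h3
    rw [Real.log_pow] at h5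
    have h6 : Real.log 2 ≤ 1 := by linarith [Real.log_two_lt_d9]
    have h7 : ((2 ^ (j + 1) : ℕ) : ℝ) = 2 ^ (j + 1) := by push_cast; rfl
    rw [h7] at h5
    have h8 : (2 : ℝ) ^ (j + 1) * Real.log 2 ≤ 2 ^ (j + 1) * 1 :=
      mul_le_mul_of_nonneg_left h6 (by positivity)
    linarith
  have e2 : Real.log (Real.log y) ≤ (j : ℝ) + 1 := by
    have h5 := Real.log_le_log hy.1 e1
    rw [Real.log_pow] at h5
    have h6 : Real.log 2 ≤ 1 := by linarith [Real.log_two_lt_d9]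
    have h8 : ((j + 1 : ℕ) : ℝ) * Real.log 2 ≤ ((j + 1 : ℕ) : ℝ) * 1 :=
      mul_le_mul_of_nonneg_left h6 (by positivity)
    push_cast at h5 h8
    linarith
  have e3 : Real.log (Real.log (Real.log y)) ≤ Real.log ((j : ℝ) + 1) := Real.log_le_log hy.2 e2
  have e4 := hj₀ j (by omega)
  have e5 : (j : ℝ) ≤ A y := by exact_mod_cast hAy
  linarith

end Furst96.Spw
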