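import Pool.Agent.H.MP_96e181_an.spw.Packing

/-! # Module PhiPack: the multipliers

If `‖g_v θ‖ < 1/2^m₀` then `g_v θ ∈ Near 1 (1/2^m₀)`; as `g_v θ ∉ Near 1 (1/2^(2^n m₀))` (`hθ`),
there is `i < n` with `g_v θ ∈ Near 1 (1/2^(2^i m₀))`, `∉ Near 1 (1/2^(2·2^i m₀))`.  Sum over `i`,
`packing` with `U i`, `sf i`, `m = 2^i m₀`, `B = 1`. -/

set_option autoImplicit false

open MeasureTheory

namespace Furst96.Spw

open Furst96.Sps Furst96.Spz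

variable {ι : Type*} [Fintype ι] [DecidableEq ι]

open Classical in
theorem phi_pack (p : ι → ℕ) (hp : ∀ i, 2 ≤ p i)
    (hinj : Pairwise fun i j => Nat.Coprime (p i) (p j)) (V : ℕ)
    (θ : UnitAddCircle) (m₀ n : ℕ) (s : ℕ → ℕ) (U : ℕ → Finset ι) (hs : ∀ i < n, 1 ≤ s i)
    (hU : ∀ i < n, (U i).card = 300 * s i)
    (hΛ : ∀ i < n, 400 * ∑ j ∈ U i, Real.log (p j) ≤ ((2 ^ i * m₀ : ℕ) : ℝ) * Real.log 2)
    (hV : ∀ i < n, 2 ^ (5 * s i + 18) * (2 ^ i * m₀) ≤ V)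
    (hθ : ∀ v ∈ box ι V, 1 / (2 : ℝ) ^ (2 ^ n * m₀) < ‖gg p v • θ‖) :
    (((box ι V).filter fun v => ‖gg p v • θ‖ < 1 / (2 : ℝ) ^ m₀).card : ℝ) ≤
      (∑ i ∈ Finset.range n, 10 / (2 : ℝ) ^ s i) * (V : ℝ) ^ Fintype.card ι := by
  have hnear : ∀ (x : UnitAddCircle) (ρ : ℝ), x ∈ Near 1 ρ ↔ ‖x‖ ≤ ρ := by
    intro x ρ
    constructor
    · rintro ⟨b, h1, h2, h3⟩
      obtain rfl : b = 1 := le_antisymm h2 h1
      rwa [one_smul] at h3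
    · intro h
      exact ⟨1, le_rfl, le_rfl, by rwa [one_smul]⟩
  have hcov : (box ι V).filter (fun v => ‖gg p v • θ‖ < 1 / (2 : ℝ) ^ m₀) ⊆
      (Finset.range n).biUnion fun i => (box ι V).filter fun v =>
        gg p v • θ ∈ Near 1 (1 / 2 ^ (2 ^ i * m₀)) ∧
          gg p v • θ ∉ Near 1 (1 / 2 ^ (2 * (2 ^ i * m₀))) := by
    intro v hv
    obtain ⟨hv1, hv2⟩ := Finset.mem_filter.1 hv
    have h0 : ‖gg p v • θ‖ ≤ 1 / (2 : ℝ) ^ (2 ^ 0 * m₀) := by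
      rw [pow_zero, one_mul]
      exact hv2.le
    have hn : ¬ ‖gg p v • θ‖ ≤ 1 / (2 : ℝ) ^ (2 ^ n * m₀) := not_le.2 (hθ v hv1)
    have key : ∀ k : ℕ, ¬ ‖gg p v • θ‖ ≤ 1 / (2 : ℝ) ^ (2 ^ k * m₀) →
        ∃ i < k, ‖gg p v • θ‖ ≤ 1 / (2 : ℝ) ^ (2 ^ i * m₀) ∧
          ¬ ‖gg p v • θ‖ ≤ 1 / (2 : ℝ) ^ (2 ^ (i + 1) * m₀) := by
      intro k
      induction k with
      | zero => exact fun h => absurd h0 h
      | succ k ih =>
        intro h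
        by_cases hk : ‖gg p v • θ‖ ≤ 1 / (2 : ℝ) ^ (2 ^ k * m₀)
        · exact ⟨k, Nat.lt_succ_self k, hk, h⟩
        · obtain ⟨i, hi, h1, h2⟩ := ih hk
          exact ⟨i, Nat.lt_succ_of_lt hi, h1, h2⟩
    obtain ⟨i, hi, h1, h2⟩ := key n hn
    refine Finset.mem_biUnion.2 ⟨i, Finset.mem_range.2 hi, Finset.mem_filter.2 ⟨hv1, ?_, ?_⟩⟩
    · rw [hnear]
      exact h1
    · rw [hnear]
      rw [pow_succ, mul_comm (2 ^ i) 2, mul_assoc] at h2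
      exact h2
  calc (((box ι V).filter fun v => ‖gg p v • θ‖ < 1 / (2 : ℝ) ^ m₀).card : ℝ)
      ≤ (((Finset.range n).biUnion fun i => (box ι V).filter fun v =>
        gg p v • θ ∈ Near 1 (1 / 2 ^ (2 ^ i * m₀)) ∧
          gg p v • θ ∉ Near 1 (1 / 2 ^ (2 * (2 ^ i * m₀)))).card : ℝ) := by
        exact_mod_cast Finset.card_le_card hcov
    _ ≤ ∑ i ∈ Finset.range n, (((box ι V).filter fun v =>
        gg p v • θ ∈ Near 1 (1 / 2 ^ (2 ^ i * m₀)) ∧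
          gg p v • θ ∉ Near 1 (1 / 2 ^ (2 * (2 ^ i * m₀)))).card : ℝ) := by
        exact_mod_cast Finset.card_biUnion_le
    _ ≤ ∑ i ∈ Finset.range n, 10 / (2 : ℝ) ^ s i * (V : ℝ) ^ Fintype.card ι := by
        refine Finset.sum_le_sum fun i hi => ?_
        rw [Finset.mem_range] at hi
        exact packing p hp hinj θ (U i) (s i) (2 ^ i * m₀) 1 V (hs i hi) (hU i hi) (hΛ i hi) le_rfl
          (by rw [one_pow]; exact Nat.one_le_two_pow) (hV i hi)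
    _ = (∑ i ∈ Finset.range n, 10 / (2 : ℝ) ^ s i) * (V : ℝ) ^ Fintype.card ι := by
        rw [Finset.sum_mul]

end Furst96.Spw
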