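import Pool.Agent.H.MP_96e181_an.spw.Packing

/-! # Module Stage: the packing lemma for an invariant measure

`stage2`: let `ι = ↥Q`, `p i = (i : ℕ)`, `U = univ`, `V = 2^(5s+18) m`, `A = Near B (1/2^m) \ Near B
(1/2^(2m))` (measurable, `measurableSet_near`).  For every `v`: `μ.real A = μ.real {x : g_v x ∈ A}`
(`Inv.real_preimage`, `Inv` of `gg p v` by `Inv.prod` or `inv_closure`).  So
`V^{#Q} μ.real A = ∑_{v ∈ box} μ.real {x : g_v x ∈ A} = ∫ #{v ∈ box : g_v x ∈ A} dμ ≤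
10 / 2^s V^{#Q}` by `packing` (`V > 0` since `m > 0`).  `μ.real (Near B (1/2^m)) ≤
μ.real (Near B (1/2^(2m))) + μ.real A`.

`near_iter`: induction on `n`, `stage2` with `m 2^n` (`hB` gives `B^9 ≤ 2^(2^n m)`). -/

set_option autoImplicit false

open MeasureTheory

namespace Furst96.Spw

open Furst96.Sps Furst96.Spz

private theorem Stage_inv_gg {ι : Type*} [Fintype ι] [DecidableEq ι]
    {μ : Measure UnitAddCircle} {p : ι → ℕ} (h : ∀ i, Inv μ (p i)) (v : ι → ℕ) :
    Inv μ (gg p v) := by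
  refine inv_closure (P := Set.range p) ?_ ?_
  · rintro _ ⟨i, rfl⟩
    exact h i
  · unfold gg
    exact Submonoid.prod_mem _ fun i _ =>
      Submonoid.pow_mem _ (Submonoid.subset_closure (Set.mem_range_self i)) _

private theorem Stage_sum_le {κ : Type*} (μ : Measure UnitAddCircle) [IsProbabilityMeasure μ]
    (S : Finset κ) (g : κ → ℕ) (hg : ∀ v ∈ S, Inv μ (g v)) (A : Set UnitAddCircle)
    (hA : MeasurableSet A) (c : ℝ)
    (hc : ∀ x : UnitAddCircle, ∑ v ∈ S, A.indicator (1 : UnitAddCircle → ℝ) (g v • x) ≤ c) :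
    (S.card : ℝ) * μ.real A ≤ c := by
  have hpre : ∀ n : ℕ, MeasurableSet ((fun x : UnitAddCircle => n • x) ⁻¹' A) :=
    fun n => (continuous_nsmul_circle n).measurable hA
  have hcomp : ∀ n : ℕ, (fun x : UnitAddCircle => A.indicator (1 : UnitAddCircle → ℝ) (n • x)) =
      ((fun x : UnitAddCircle => n • x) ⁻¹' A).indicator (1 : UnitAddCircle → ℝ) := by
    intro n
    funext x
    rfl
  have h1 : ∀ v ∈ S, ∫ x, A.indicator (1 : UnitAddCircle → ℝ) (g v • x) ∂μ = μ.real A := by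
    intro v hv
    rw [hcomp, integral_indicator_one (hpre _)]
    exact (hg v hv).real_preimage hA
  have hint : ∀ v ∈ S, Integrable
      (fun x => A.indicator (1 : UnitAddCircle → ℝ) (g v • x)) μ := by
    intro v _
    rw [hcomp]
    exact (integrable_const (1 : ℝ)).indicator (hpre _)
  have h2 : (S.card : ℝ) * μ.real A =
      ∫ x, ∑ v ∈ S, A.indicator (1 : UnitAddCircle → ℝ) (g v • x) ∂μ := by
    rw [integral_finsetSum _ hint, Finset.sum_congr rfl h1, Finset.sum_const, nsmul_eq_mul]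
  rw [h2]
  refine (integral_mono (integrable_finsetSum _ hint) (integrable_const c) hc).trans ?_
  rw [integral_const, probReal_univ, one_smul]

theorem stage2 (μ : Measure UnitAddCircle) [IsProbabilityMeasure μ] (Q : Finset ℕ)
    (hQ : ∀ q ∈ Q, 2 ≤ q) (hQc : (Q : Set ℕ).Pairwise Nat.Coprime) (hinv : ∀ q ∈ Q, Inv μ q) (s m B : ℕ) (hs : 1 ≤ s)
    (hcard : Q.card = 300 * s) (hΛ : 400 * ∑ q ∈ Q, Real.log q ≤ m * Real.log 2) (hB1 : 1 ≤ B)
    (hB : B ^ 9 ≤ 2 ^ m) :
    μ.real (Near B (1 / 2 ^ m)) ≤ μ.real (Near B (1 / 2 ^ (2 * m))) + 10 / 2 ^ s := by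
  classical
  have hlog2 : (0 : ℝ) < Real.log 2 := Real.log_pos (by norm_num)
  let p : ↥Q → ℕ := fun i => (i : ℕ)
  have hp : ∀ i, 2 ≤ p i := fun i => hQ i.1 i.2
  have hinj : Pairwise fun i j => Nat.Coprime (p i) (p j) := fun i j hij =>
    hQc i.2 j.2 fun h => hij (Subtype.ext h)
  have hcardι : Fintype.card ↥Q = Q.card := Fintype.card_coe Q
  have hU : (Finset.univ : Finset ↥Q).card = 300 * s := by
    rw [Finset.card_univ, hcardι, hcard]
  have hsum : ∑ i ∈ (Finset.univ : Finset ↥Q), Real.log (p i) = ∑ q ∈ Q, Real.log q :=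
    Finset.sum_coe_sort Q (fun q => Real.log (q : ℝ))
  have hm : 0 < m := by
    rcases Nat.eq_zero_or_pos m with h | h
    · exfalso
      subst h
      have hne : Q.Nonempty := Finset.card_pos.1 (by omega)
      have hpos : 0 < ∑ q ∈ Q, Real.log (q : ℝ) :=
        Finset.sum_pos (fun q hq => Real.log_pos (by exact_mod_cast (lt_of_lt_of_le one_lt_two (hQ q hq)))) hne
      simp only [Nat.cast_zero, zero_mul] at hΛ
      linarith
    · exact h
  obtain ⟨V, hVdef⟩ : ∃ V : ℕ, V = 2 ^ (5 * s + 18) * m := ⟨_, rfl⟩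
  have hV : 0 < V := by
    rw [hVdef]
    positivity
  have hAm : MeasurableSet (Near B (1 / 2 ^ m) \ Near B (1 / 2 ^ (2 * m))) :=
    (measurableSet_near _ _).diff (measurableSet_near _ _)
  have hpk := fun x => packing p hp hinj x Finset.univ s m B V hs hU
    (by rw [hsum]; exact hΛ) hB1 hB hVdef.ge
  have hsplit : μ.real (Near B (1 / 2 ^ m)) ≤ μ.real (Near B (1 / 2 ^ (2 * m))) +
      μ.real (Near B (1 / 2 ^ m) \ Near B (1 / 2 ^ (2 * m))) := by
    refine (measureReal_mono ?_).trans (measureReal_union_le _ _)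
    intro x hx
    by_cases hx' : x ∈ Near B (1 / 2 ^ (2 * m))
    · exact Or.inl hx'
    · exact Or.inr ⟨hx, hx'⟩
  generalize hAdef : Near B (1 / 2 ^ m) \ Near B (1 / 2 ^ (2 * m)) = A at hAm hsplit
  have h3 := Stage_sum_le μ (box ↥Q V) (fun v => gg p v)
    (fun v _ => Stage_inv_gg (p := p) (fun i => hinv i.1 i.2) v) A hAm
    (10 / 2 ^ s * (V : ℝ) ^ Fintype.card ↥Q) (by
      intro x
      refine le_of_eq_of_le ?_ (hpk x)
      simp only [Set.indicator_apply, Pi.one_apply]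
      rw [Finset.sum_boole, ← hAdef]
      simp only [Set.mem_sdiff])
  rw [card_box] at h3
  push_cast at h3
  have hVpos : (0 : ℝ) < (V : ℝ) ^ Fintype.card ↥Q := by positivity
  have h4 : μ.real A ≤ 10 / 2 ^ s := by
    refine le_of_mul_le_mul_left ?_ hVpos
    linarith
  linarith

theorem near_iter (μ : Measure UnitAddCircle) [IsProbabilityMeasure μ] (m B : ℕ) (hB1 : 1 ≤ B)
    (hB : B ^ 9 ≤ 2 ^ m) (sf : ℕ → ℕ) (n : ℕ)
    (h : ∀ i < n, ∃ Q : Finset ℕ, (∀ q ∈ Q, 2 ≤ q ∧ Inv μ q) ∧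
      (Q : Set ℕ).Pairwise Nat.Coprime ∧ Q.card = 300 * sf i ∧
      400 * ∑ q ∈ Q, Real.log q ≤ ((2 ^ i * m : ℕ) : ℝ) * Real.log 2 ∧ 1 ≤ sf i) :
    μ.real (Near B (1 / 2 ^ m)) ≤ μ.real (Near B (1 / 2 ^ (2 ^ n * m))) +
      ∑ i ∈ Finset.range n, 10 / (2 : ℝ) ^ sf i := by
  induction n with
  | zero => simp
  | succ n ih =>
    have ih' := ih fun i hi => h i (Nat.lt_succ_of_lt hi)
    obtain ⟨Q, hQ, hQc, hc, hl, hs⟩ := h n (Nat.lt_succ_self n)
    have hB' : B ^ 9 ≤ 2 ^ (2 ^ n * m) :=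
      hB.trans (Nat.pow_le_pow_right (by norm_num)
        (Nat.le_mul_of_pos_left m (by positivity)))
    have h1 := stage2 μ Q (fun q hq => (hQ q hq).1) hQc (fun q hq => (hQ q hq).2) (sf n)
      (2 ^ n * m) B hs hc hl hB1 hB'
    rw [Finset.sum_range_succ, show 2 ^ (n + 1) * m = 2 * (2 ^ n * m) by ring]
    linarith

end Furst96.Spw
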